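import Pool.Agent.TH110.Zig.Ret

/-!
# Summation over the dyadic windows
-/

set_option autoImplicit false

open MeasureTheory Set Filter Topology

namespace Pool.Agent.TH110.Zig

variable {q : ℕ → ℝ} {L : ℝ → ℝ}

/-- Every return costs a point. -/
theorem Returns.count (hq : Pts q) {a b : ℝ} (hab : a < b) (hb : 0 < b) {k : ℕ} {x : ℝ}
    (h : Returns (cr q) L a b k x) : k + 1 ≤ cnt q (2 * x) := by
  obtain ⟨H, h0, h1, h2, h3, h4⟩ := h
  have hpos := chain_pos h0 h1
  have hA0 : ∀ s, 0 < s → 0 ≤ cr q (x + s) - cr q x := by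
    intro s hs
    have := hq.cr_mono (show x ≤ x + s by linarith)
    linarith
  have hLx : 0 < L x := by
    have h5 := h3 0 (Nat.zero_le _)
    rw [le_div_iff₀ (hpos _ (by omega))] at h5
    have h6 : 0 < b * H (2 * 0) := mul_pos hb (hpos _ (by omega))
    by_contra h7
    push Not at h7
    have := mul_nonpos_of_nonneg_of_nonpos (hA0 (H (2 * 0)) (hpos _ (by omega))) h7
    linarith
  have key : ∀ i ≤ k, i + cnt q x + 1 ≤ cnt q (x + H (2 * i)) := by
    intro i
    induction i with
    | zero =>
      intro _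
      have h5 := h3 0 (Nat.zero_le _)
      rw [le_div_iff₀ (hpos _ (by omega))] at h5
      have h6 : 0 < b * H (2 * 0) := mul_pos hb (hpos _ (by omega))
      have h7 : 0 < (cr q (x + H (2 * 0)) - cr q x) := by
        have : 0 < (cr q (x + H (2 * 0)) - cr q x) * L x := by linarith
        exact pos_of_mul_pos_left this hLx.le
      have h8 : (cnt q x : ℝ) < cnt q (x + H (2 * 0)) := by unfold cr at h7; linarith
      have h9 : cnt q x < cnt q (x + H (2 * 0)) := by exact_mod_cast h8
      omega
    | succ i ih =>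
      intro hi
      have h5 := ih (by omega)
      have h6 := h3 (i + 1) hi
      have h7 := h4 i (by omega)
      have p1 := hpos (2 * (i + 1)) (by omega)
      have p2 := hpos (2 * i + 1) (by omega)
      rw [le_div_iff₀ p1] at h6
      rw [div_le_iff₀ p2] at h7
      have e : 2 * (i + 1) = 2 * i + 1 + 1 := by ring
      have h8 : H (2 * i + 1) < H (2 * (i + 1)) := by
        rw [e]; exact h1 (2 * i + 1) (by omega)
      have h9 : H (2 * i) < H (2 * i + 1) := h1 (2 * i) (by omega)
      have h10 : a * H (2 * i + 1) < b * H (2 * (i + 1)) := by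
        calc a * H (2 * i + 1) < b * H (2 * i + 1) := mul_lt_mul_of_pos_right hab p2
          _ ≤ b * H (2 * (i + 1)) := mul_le_mul_of_nonneg_left h8.le hb.le
      have h11 : cr q (x + H (2 * i)) ≤ cr q (x + H (2 * i + 1)) :=
        hq.cr_mono (by linarith)
      have h12 : (cr q (x + H (2 * i + 1)) - cr q x) * L x <
          (cr q (x + H (2 * (i + 1))) - cr q x) * L x := by linarith
      have h13 := lt_of_mul_lt_mul_right h12 hLx.le
      have h14 : cr q (x + H (2 * i)) < cr q (x + H (2 * (i + 1))) := by linarith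
      have h15 : cnt q (x + H (2 * i)) < cnt q (x + H (2 * (i + 1))) := by
        unfold cr at h14; exact_mod_cast h14
      omega
  have h5 := key k le_rfl
  have h6 : cnt q (x + H (2 * k)) ≤ cnt q (2 * x) := hq.cnt_mono (by linarith)
  omega

/-- **The bound for the number of returns, uniformly in the number of returns.** -/
theorem Reg.returns (hR : Reg q L) (hs : Slow L) {a b δ : ℝ} (ha : 0 < a) (hab : a < b)
    (hδ : 0 < δ) : ∀ᶠ X : ℝ in atTop, ∀ k : ℕ,
      volume.real {x | 0 ≤ x ∧ x ≤ X ∧ Returns (cr q) L a b k x} ≤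
        (1 + δ) * min 1 (1 / b) * (a / b + δ) ^ k * X := by
  have hb : 0 < b := ha.trans hab
  have hev := hR.window hs ha hab (δ := δ / 2) (by positivity)
  obtain ⟨X₀, hX₀⟩ := (hev.and (eventually_gt_atTop (0 : ℝ))).exists_forall_of_atTop
  have hX₀0 : 0 < X₀ := (hX₀ X₀ le_rfl).2
  set f : ℕ → ℝ → ℝ := fun k X => volume.real {x | 0 ≤ x ∧ x ≤ X ∧ Returns (cr q) L a b k x} with hf
  set c : ℕ → ℝ := fun k => min 1 (1 / b) * (a / b + δ / 2) ^ k with hc
  have hm0 : 0 < min 1 (1 / b) := by positivity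
  have hc0 : ∀ k, 0 < c k := fun k => by simp only [hc]; positivity
  have hfin : ∀ k X, volume {x | 0 ≤ x ∧ x ≤ X ∧ Returns (cr q) L a b k x} ≠ ⊤ := by
    intro k X
    exact real_ne_top (N := X) (fun x hx => ⟨hx.1, hx.2.1⟩)
  -- induction over the dyadic windows
  have hind : ∀ k n : ℕ, ∀ X : ℝ, 0 ≤ X → X ≤ 2 ^ n * X₀ →
      f k X ≤ f k X₀ + (1 + δ / 2) * c k * X := by
    intro k n
    induction n with
    | zero =>
      intro X h0 h1
      have h2 : f k X ≤ f k X₀ := by
        simp only [hf]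
        refine measureReal_mono ?_ (hfin k X₀)
        rintro x ⟨h3, h4, h5⟩
        exact ⟨h3, by linarith, h5⟩
      have h3 : 0 ≤ (1 + δ / 2) * c k * X := by
        have := hc0 k
        positivity
      linarith
    | succ n ih =>
      intro X h0 h1
      have h3 : 0 ≤ (1 + δ / 2) * c k * X := by
        have := hc0 k
        positivity
      by_cases hX : X ≤ X₀
      · have h2 : f k X ≤ f k X₀ := by
          simp only [hf]
          refine measureReal_mono ?_ (hfin k X₀)
          rintro x ⟨h3, h4, h5⟩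
          exact ⟨h3, by linarith, h5⟩
        linarith
      · push Not at hX
        have h4 := ih (X / 2) (by linarith) (by rw [pow_succ] at h1; linarith)
        have h5 := (hX₀ X hX.le).1 k
        have h6 : f k X ≤ f k (X / 2) +
            volume.real {x | X / 2 < x ∧ x ≤ X ∧ Returns (cr q) L a b k x} := by
          simp only [hf]
          have hsub : {x | 0 ≤ x ∧ x ≤ X ∧ Returns (cr q) L a b k x} ⊆
              {x | 0 ≤ x ∧ x ≤ X / 2 ∧ Returns (cr q) L a b k x} ∪
                {x | X / 2 < x ∧ x ≤ X ∧ Returns (cr q) L a b k x} := by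
            rintro x ⟨h7, h8, h9⟩
            by_cases h10 : x ≤ X / 2
            · left; exact ⟨h7, h10, h9⟩
            · right; exact ⟨not_le.mp h10, h8, h9⟩
          have hfin2 : volume {x | X / 2 < x ∧ x ≤ X ∧ Returns (cr q) L a b k x} ≠ ⊤ :=
            real_ne_top (N := X) (fun x hx => ⟨by linarith [hx.1], hx.2.1⟩)
          refine (measureReal_mono hsub ?_).trans (measureReal_union_le _ _)
          exact (measure_union_lt_top (lt_top_iff_ne_top.mpr (hfin k (X / 2)))
            (lt_top_iff_ne_top.mpr hfin2)).ne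
        have e : (1 + δ / 2) * min 1 (1 / b) * (a / b + δ / 2) ^ k * (X / 2) =
            (1 + δ / 2) * c k * (X / 2) := by simp only [hc]; ring
        rw [e] at h5
        linarith
  -- the initial segment
  set K₀ : ℕ := cnt q (2 * X₀) with hK₀
  have hf0 : ∀ k, K₀ ≤ k → f k X₀ = 0 := by
    intro k hk
    have : {x | 0 ≤ x ∧ x ≤ X₀ ∧ Returns (cr q) L a b k x} = ∅ := by
      ext x
      simp only [mem_ofPred_eq, mem_empty_iff_false, iff_false, not_and]
      intro h1 h2 h3
      have h4 := h3.count hR.pts hab hb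
      have h5 : cnt q (2 * x) ≤ cnt q (2 * X₀) := hR.pts.cnt_mono (by linarith)
      omega
    simp only [hf, this, measureReal_empty]
  have hf1 : ∀ k, f k X₀ ≤ X₀ := by
    intro k
    simp only [hf]
    have h1 : volume.real {x | 0 ≤ x ∧ x ≤ X₀ ∧ Returns (cr q) L a b k x} ≤
        volume.real (Icc 0 X₀) := by
      refine measureReal_mono (fun x hx => ⟨hx.1, hx.2.1⟩) measure_Icc_lt_top.ne
    rw [Real.volume_real_Icc_of_le hX₀0.le, sub_zero] at h1
    exact h1
  set r : ℝ := min 1 (a / b + δ / 2) with hr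
  have hr0 : 0 < r := lt_min one_pos (by positivity)
  have hr1 : r ≤ 1 := min_le_left _ _
  have hcmin : ∀ k, k ≤ K₀ → min 1 (1 / b) * r ^ K₀ ≤ c k := by
    intro k hk
    simp only [hc]
    apply mul_le_mul_of_nonneg_left _ hm0.le
    calc r ^ K₀ ≤ r ^ k := pow_le_pow_of_le_one hr0.le hr1 hk
      _ ≤ _ := pow_le_pow_left₀ hr0.le (min_le_right _ _) k
  have hlim : ∀ᶠ X : ℝ in atTop, X₀ ≤ δ / 2 * (min 1 (1 / b) * r ^ K₀) * X := by
    have hpos : 0 < δ / 2 * (min 1 (1 / b) * r ^ K₀) := by positivity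
    filter_upwards [eventually_ge_atTop (X₀ / (δ / 2 * (min 1 (1 / b) * r ^ K₀)))] with X hX
    rw [div_le_iff₀ hpos] at hX
    linarith
  filter_upwards [hlim, eventually_gt_atTop 0] with X hX hX0 k
  obtain ⟨n, hn⟩ : ∃ n : ℕ, X ≤ 2 ^ n * X₀ := by
    obtain ⟨n, hn⟩ := pow_unbounded_of_one_lt (X / X₀) (by norm_num : (1 : ℝ) < 2)
    refine ⟨n, ?_⟩
    rw [div_lt_iff₀ hX₀0] at hn
    exact hn.le
  have h1 := hind k n X hX0.le hn
  have h2 : f k X₀ ≤ δ / 2 * c k * X := by
    by_cases hk : k ≤ K₀
    · refine (hf1 k).trans (hX.trans ?_)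
      have := hcmin k hk
      have h3 : 0 ≤ δ / 2 := by positivity
      exact mul_le_mul_of_nonneg_right (mul_le_mul_of_nonneg_left this h3) hX0.le
    · rw [hf0 k (by omega)]
      have := hc0 k
      positivity
  have h3 : f k X ≤ (1 + δ) * c k * X := by
    have e : (1 + δ) * c k * X = δ / 2 * c k * X + (1 + δ / 2) * c k * X := by ring
    rw [e]; linarith
  refine h3.trans ?_
  have h4 : c k ≤ min 1 (1 / b) * (a / b + δ) ^ k := by
    simp only [hc]
    apply mul_le_mul_of_nonneg_left _ hm0.le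
    apply pow_le_pow_left₀ (by positivity)
    linarith
  calc (1 + δ) * c k * X ≤ (1 + δ) * (min 1 (1 / b) * (a / b + δ) ^ k) * X := by
        apply mul_le_mul_of_nonneg_right _ hX0.le
        exact mul_le_mul_of_nonneg_left h4 (by positivity)
    _ = _ := by ring

end Pool.Agent.TH110.Zig
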