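import Pool.Agent.TH110.Zig.Primes
import Pool.Agent.TH110.Zig.RetSum

set_option autoImplicit false

open MeasureTheory Set Filter Topology

namespace Pool.Agent.TH110.Zig

theorem slow_log : Slow Real.log := by
  intro δ hδ
  filter_upwards [eventually_gt_atTop 0, Real.tendsto_log_atTop.eventually_ge_atTop
    (Real.log 2 / δ), Real.tendsto_log_atTop.eventually_ge_atTop 0] with Y hY hlog hlog0 x h1 h2
  have hx : 0 < x := by linarith
  rw [div_le_iff₀ hδ] at hlog
  constructor
  · have h3 : Real.log (Y / 2) ≤ Real.log x := Real.log_le_log (by linarith) h1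
    rw [Real.log_div hY.ne' (by norm_num)] at h3
    linarith
  · have h3 : Real.log x ≤ Real.log Y := Real.log_le_log hx h2
    have h4 : 0 ≤ δ * Real.log Y := mul_nonneg hδ.le hlog0
    linarith

end Pool.Agent.TH110.Zig
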