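import Pool.Agent.TH110.Zig.Law
import Pool.Agent.Helper923.PNT

/-!
# The primes as a sequence of points, and the prime number theorem in a window `[ε N, K N]`
-/

set_option autoImplicit false

open MeasureTheory Set Filter Topology

namespace Pool.Agent.TH110.Zig

/-- the sequence of the primes -/
noncomputable def qp (i : ℕ) : ℝ := Nat.nth Nat.Prime i

theorem pts_qp : Pts qp := by
  have h := Nat.nth_strictMono Nat.infinite_setOfPred_prime
  refine ⟨fun i j hij => ?_, ?_⟩
  · unfold qp; exact_mod_cast h hij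
  · exact tendsto_natCast_atTop_atTop.comp h.tendsto_atTop

theorem qp_zero_pos : 0 < qp 0 := by
  unfold qp
  have : 0 < Nat.nth Nat.Prime 0 := (Nat.nth_mem_of_infinite Nat.infinite_setOfPred_prime 0).pos
  exact_mod_cast this

theorem cnt_qp (v : ℝ) : cnt qp v = Nat.primeCounting ⌊v⌋₊ := by
  have key : ∀ j, cnt qp v ≤ j ↔ Nat.primeCounting ⌊v⌋₊ ≤ j := by
    intro j
    rw [pts_qp.cnt_le_iff, Nat.primeCounting, Nat.primeCounting',
      Nat.count_le_iff_le_nth Nat.infinite_setOfPred_prime, Nat.succ_le_iff, qp]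
    by_cases hv : 0 ≤ v
    · rw [Nat.floor_lt hv]
    · push Not at hv
      rw [Nat.floor_of_nonpos hv.le]
      have : 0 < Nat.nth Nat.Prime j := (Nat.nth_mem_of_infinite Nat.infinite_setOfPred_prime j).pos
      have h2 : (0 : ℝ) < Nat.nth Nat.Prime j := by exact_mod_cast this
      constructor
      · intro _; exact this
      · intro _; linarith
  apply le_antisymm
  · rw [key]
  · rw [← key]

/-- The prime number theorem, uniformly in a window `[ε N, K N]`, relative to `log N`. -/
theorem pnt_window (ε K δ : ℝ) (hε : 0 < ε) (hδ : 0 < δ) : ∀ᶠ N : ℝ in atTop, ∀ v : ℝ,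
    ε * N ≤ v → v ≤ K * N → |(Nat.primeCounting ⌊v⌋₊ : ℝ) - v / Real.log N| ≤
      δ * (v / Real.log N) := by
  by_cases hεK : K < ε
  · filter_upwards [eventually_gt_atTop 0] with N hN v h1 h2
    nlinarith
  push Not at hεK
  have hK : 0 < K := hε.trans_le hεK
  -- `π(v) log v / v` is close to `1` and `log N / log v` is close to `1`
  obtain ⟨η, hη0, hη1, hηδ⟩ : ∃ η : ℝ, 0 < η ∧ η ≤ 1 / 2 ∧ 3 * η ≤ δ :=
    ⟨min (1 / 2) (δ / 3), by positivity, min_le_left _ _, by
      have := min_le_right (1 / 2) (δ / 3); linarith⟩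
  obtain ⟨X, hX⟩ := (Metric.tendsto_nhds.mp Helper923.PNT.pi_tendsto (η / 2)
    (by positivity)).exists_forall_of_atTop
  set C : ℝ := |Real.log ε| + |Real.log K| with hC
  have hC0 : 0 ≤ C := by positivity
  filter_upwards [eventually_gt_atTop 1, eventually_ge_atTop (X / ε), eventually_gt_atTop (2 / ε),
    Real.tendsto_log_atTop.eventually_ge_atTop (4 * (C + 1) / η)] with N hN1 hNX hN2 hNL v h1 h2
  have hN0 : 0 < N := by linarith
  have hL0 : 0 < Real.log N := Real.log_pos hN1
  have hεN : X ≤ ε * N := by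
    rw [div_le_iff₀ hε] at hNX; linarith
  have hεN2 : 2 < ε * N := by
    rw [div_lt_iff₀ hε] at hN2; linarith
  have hv0 : 0 < v := by linarith
  have hv1 : 1 < v := by linarith
  have hlv : 0 < Real.log v := Real.log_pos hv1
  have hup : Real.log v ≤ Real.log N + C := by
    have : Real.log v ≤ Real.log (K * N) := Real.log_le_log hv0 h2
    rw [Real.log_mul hK.ne' hN0.ne'] at this
    have h3 := le_abs_self (Real.log K)
    have h4 := abs_nonneg (Real.log ε)
    linarith
  have hlo : Real.log N - C ≤ Real.log v := by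
    have : Real.log (ε * N) ≤ Real.log v := Real.log_le_log (by positivity) h1
    rw [Real.log_mul hε.ne' hN0.ne'] at this
    have h3 := neg_abs_le (Real.log ε)
    have h4 := abs_nonneg (Real.log K)
    linarith
  have hCL : 4 * C ≤ η * Real.log N := by
    rw [div_le_iff₀ hη0] at hNL; nlinarith
  have h3 := hX v (hεN.trans h1)
  rw [Real.dist_eq, abs_lt] at h3
  obtain ⟨h4, h5⟩ := h3
  set p : ℝ := (Nat.primeCounting ⌊v⌋₊ : ℝ) with hp
  have h6 : (1 - η / 2) * v ≤ p * Real.log v := by
    have : (1 - η / 2) < p * Real.log v / v := by linarith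
    rw [lt_div_iff₀ hv0] at this; exact this.le
  have h7 : p * Real.log v ≤ (1 + η / 2) * v := by
    have : p * Real.log v / v < (1 + η / 2) := by linarith
    rw [div_lt_iff₀ hv0] at this; exact this.le
  have hp0 : 0 ≤ p := Nat.cast_nonneg _
  -- compare `p log N` with `p log v`
  have h8 : p * Real.log N ≤ (1 + 3 * η) * v := by
    have h9 : (1 - η / 4) * Real.log N ≤ Real.log v := by nlinarith
    have h10 : p * ((1 - η / 4) * Real.log N) ≤ (1 + η / 2) * v :=
      (mul_le_mul_of_nonneg_left h9 hp0).trans h7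
    have h11 : (1 + η / 2) ≤ (1 + 3 * η) * (1 - η / 4) := by nlinarith
    have h12 : (1 - η / 4) * (p * Real.log N) ≤ (1 - η / 4) * ((1 + 3 * η) * v) := by nlinarith
    exact le_of_mul_le_mul_left h12 (by linarith)
  have h9 : (1 - 3 * η) * v ≤ p * Real.log N := by
    have h9 : Real.log v ≤ (1 + η / 4) * Real.log N := by nlinarith
    have h10 : (1 - η / 2) * v ≤ p * ((1 + η / 4) * Real.log N) :=
      h6.trans (mul_le_mul_of_nonneg_left h9 hp0)
    have h11 : (1 - 3 * η) * (1 + η / 4) ≤ (1 - η / 2) := by nlinarith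
    have h12 : (1 + η / 4) * ((1 - 3 * η) * v) ≤ (1 + η / 4) * (p * Real.log N) := by nlinarith
    exact le_of_mul_le_mul_left h12 (by linarith)
  have h10 : |p - v / Real.log N| * Real.log N ≤ δ * v := by
    rw [← abs_of_pos hL0, ← abs_mul, abs_of_pos hL0, sub_mul, div_mul_cancel₀ _ hL0.ne', abs_le]
    constructor <;> nlinarith
  rw [mul_div_assoc', le_div_iff₀ hL0]
  exact h10

/-- the number of primes `≤ x` -/
noncomputable def prc (x : ℝ) : ℝ := (Nat.primeCounting ⌊x⌋₊ : ℝ)

theorem cr_qp : cr qp = prc := by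
  funext x
  rw [cr, cnt_qp, prc]

theorem reg_qp : Reg qp Real.log where
  pts := pts_qp
  pos := qp_zero_pos
  lpos := (eventually_gt_atTop 1).mono fun _ h => Real.log_pos h
  win := by
    intro ε K δ hε hδ
    filter_upwards [pnt_window ε K δ hε hδ] with N hN v h1 h2
    rw [cr_qp]
    exact hN v h1 h2

end Pool.Agent.TH110.Zig
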