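import Pool.Agent.TH110.Zig.Marg

/-!
# The mean of the margins
-/

set_option autoImplicit false

open MeasureTheory Set Filter Topology

namespace Pool.Agent.TH110.Zig

variable {q : ℕ → ℝ} {L : ℝ → ℝ}

/-- `L` varies slowly in all windows `[ε N, N]` -/
def SlowW (L : ℝ → ℝ) : Prop := ∀ ε δ : ℝ, 0 < ε → 0 < δ → ∀ᶠ N : ℝ in atTop, ∀ x : ℝ,
  ε * N ≤ x → x ≤ N → (1 - δ) * L N ≤ L x ∧ L x ≤ (1 + δ) * L N

/-- The mean of the positive parts of the margins up to `2 q i` for the slopes `μ / L (q i)` tends to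
`1 - μ`. -/
theorem Reg.mean_marg (hR : Reg q L) (hs : SlowW L) {μ κ : ℝ} (hμ0 : 0 < μ) (hμ1 : μ < 1)
    (hκ : 0 < κ) : ∀ᶠ N : ℝ in atTop,
      (1 - μ - κ) * cr q N ≤ ∑ i ∈ Finset.range (cnt q N), max 0 (marg q (μ / L (q i)) (2 * q i) i) ∧
      ∑ i ∈ Finset.range (cnt q N), max 0 (marg q (μ / L (q i)) (2 * q i) i) ≤
        (1 - μ + κ) * cr q N := by
  have hq := hR.pts
  set g : ℝ := 1 - μ with hg
  have hg0 : 0 < g := by linarith
  have hg1 : g ≤ 1 := by linarith
  obtain ⟨δ, hδ0, hδ1, hδg, hδκ⟩ : ∃ δ : ℝ, 0 < δ ∧ δ ≤ 1 / 10 ∧ 8 * δ ≤ g ∧ 12 * δ ≤ κ * g :=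
    ⟨min (1 / 10) (min (g / 8) (κ * g / 12)), by positivity, min_le_left _ _, by
      have := (min_le_right (1 / 10) (min (g / 8) (κ * g / 12))).trans (min_le_left _ _)
      linarith, by
      have := (min_le_right (1 / 10) (min (g / 8) (κ * g / 12))).trans (min_le_right _ _)
      linarith⟩
  filter_upwards [hR.win δ 3 δ hδ0 hδ0, hR.lpos, eventually_gt_atTop 0,
    eventually_ge_atTop (q 0 / δ), hs δ δ hδ0 hδ0] with N hwin hl hN hNq hslow
  set ℓ := L N with hℓ
  set n := cnt q N with hn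
  set u := N / ℓ with hu
  have hu0 : 0 < u := div_pos hN hl
  have hM : q 0 ≤ δ * N := by rw [div_le_iff₀ hδ0] at hNq; linarith
  have hδN : δ * N ≤ 1 / 10 * N := mul_le_mul_of_nonneg_right hδ1 hN.le
  have hδN0 : 0 < δ * N := by positivity
  have hwN := abs_le.mp (hwin N (by linarith) (by linarith))
  have hn1 : (1 - δ) * u ≤ cr q N := by linarith [hwN.1]
  have hn2 : cr q N ≤ (1 + δ) * u := by linarith [hwN.2]
  have hcn : cr q N = (n : ℝ) := rfl
  have hwM := abs_le.mp (hwin (δ * N) le_rfl (by linarith))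
  have hsmall : cr q (δ * N) ≤ (1 + δ) * δ * u := by
    have e : δ * N / ℓ = δ * u := by rw [hu]; ring
    rw [e] at hwM
    have e2 : (1 + δ) * δ * u = δ * u + δ * (δ * u) := by ring
    rw [e2]
    linarith [hwM.2]
  set μ₁ : ℝ := μ / (1 + δ) with hμ₁
  set μ₂ : ℝ := μ / (1 - δ) with hμ₂
  have hδ1' : 0 < 1 - δ := by linarith
  have hμ₁0 : 0 < μ₁ := by positivity
  have hμ₂0 : 0 < μ₂ := div_pos hμ0 hδ1'
  have hμ₁μ : μ₁ ≤ μ := by
    rw [hμ₁, div_le_iff₀ (by linarith)]
    have : 0 ≤ μ * δ := by positivity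
    linarith
  have hμ₂μ : μ₂ ≤ μ + 2 * δ := by
    rw [hμ₂, div_le_iff₀ hδ1']
    have h1 : μ * δ ≤ 1 * δ := mul_le_mul_of_nonneg_right hμ1.le hδ0.le
    have h2 : δ * δ ≤ 1 / 10 * δ := mul_le_mul_of_nonneg_right hδ1 hδ0.le
    have e : (μ + 2 * δ) * (1 - δ) = μ - μ * δ + 2 * δ - 2 * (δ * δ) := by ring
    rw [e]; linarith
  have hσ₁ : 0 < μ₁ / ℓ := by positivity
  have hσ₂ : 0 < μ₂ / ℓ := by positivity
  have hqi : ∀ i < n, q i ≤ N := fun i hi => by rwa [← hq.lt_cnt_iff]
  -- comparison of the margins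
  have hcomp : ∀ i < n, δ * N ≤ q i →
      marg q (μ₂ / ℓ) (3 * N) i ≤ marg q (μ / L (q i)) (2 * q i) i ∧
      marg q (μ / L (q i)) (2 * q i) i ≤ marg q (μ₁ / ℓ) (3 * N) i := by
    intro i hi hiN
    have h1 := hqi i hi
    obtain ⟨h2, h3⟩ := hslow (q i) hiN h1
    have hq0 : 0 < q i := hδN0.trans_le hiN
    have hLp : 0 < L (q i) := by
      have : 0 < (1 - δ) * ℓ := mul_pos hδ1' hl
      linarith
    have hs1 : μ₁ / ℓ ≤ μ / L (q i) := by
      rw [hμ₁, div_div, div_le_div_iff_of_pos_left hμ0 (by positivity) hLp]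
      exact h3
    have hs2 : μ / L (q i) ≤ μ₂ / ℓ := by
      rw [hμ₂, div_div, div_le_div_iff_of_pos_left hμ0 hLp (mul_pos hδ1' hl)]
      exact h2
    have hσ : 0 < μ / L (q i) := div_pos hμ0 hLp
    constructor
    · refine le_csInf ⟨_, q i, ⟨le_rfl, by linarith⟩, rfl⟩ ?_
      rintro _ ⟨t, ht, rfl⟩
      have h4 : marg q (μ₂ / ℓ) (3 * N) i ≤ cr q t - i - μ₂ / ℓ * (t - q i) :=
        csInf_le (marg_bdd q hσ₂.le _ i) ⟨t, ⟨ht.1, by linarith [ht.2]⟩, rfl⟩
      have h5 : μ / L (q i) * (t - q i) ≤ μ₂ / ℓ * (t - q i) :=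
        mul_le_mul_of_nonneg_right hs2 (by linarith [ht.1])
      change marg q (μ₂ / ℓ) (3 * N) i ≤ cr q t - i - μ / L (q i) * (t - q i)
      linarith
    · refine le_csInf ⟨_, q i, ⟨le_rfl, by linarith⟩, rfl⟩ ?_
      rintro _ ⟨t, ht, rfl⟩
      change marg q (μ / L (q i)) (2 * q i) i ≤ cr q t - i - μ₁ / ℓ * (t - q i)
      rcases le_total t (2 * q i) with h4 | h4
      · have h5 : marg q (μ / L (q i)) (2 * q i) i ≤ cr q t - i - μ / L (q i) * (t - q i) :=
          csInf_le (marg_bdd q hσ.le _ i) ⟨t, ⟨ht.1, h4⟩, rfl⟩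
        have h6 : μ₁ / ℓ * (t - q i) ≤ μ / L (q i) * (t - q i) :=
          mul_le_mul_of_nonneg_right hs1 (by linarith [ht.1])
        linarith
      · have h5 := hq.marg_le_one hσ.le (R := 2 * q i) (i := i) (by linarith)
        have h6 := abs_le.mp (hwin t (by linarith) (by linarith [ht.2]))
        have h7 := abs_le.mp (hwin (q i) hiN (by linarith))
        have h8 : cr q (q i) = i + 1 := by rw [cr, hq.cnt_q]; push_cast; ring
        rw [h8] at h7
        have h9 : μ₁ / ℓ * (t - q i) + δ * (t / ℓ) + δ * (q i / ℓ) ≤ t / ℓ - q i / ℓ := by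
          have e1 : μ₁ / ℓ * (t - q i) + δ * (t / ℓ) + δ * (q i / ℓ) =
            (μ₁ * (t - q i) + δ * t + δ * q i) / ℓ := by ring
          have e2 : t / ℓ - q i / ℓ = (t - q i) / ℓ := by ring
          rw [e1, e2]
          apply div_le_div_of_nonneg_right _ hl.le
          have h10 : μ₁ * (t - q i) ≤ μ * (t - q i) :=
            mul_le_mul_of_nonneg_right hμ₁μ (by linarith)
          have h11 : δ * t + δ * q i ≤ g * (t - q i) := by
            have h12 : t + q i ≤ 3 * (t - q i) := by linarith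
            have h13 : δ * (t + q i) ≤ δ * (3 * (t - q i)) := mul_le_mul_of_nonneg_left h12 hδ0.le
            have h14 : 8 * δ * (t - q i) ≤ g * (t - q i) :=
              mul_le_mul_of_nonneg_right hδg (by linarith)
            have h15 : 0 ≤ δ * (t - q i) := mul_nonneg hδ0.le (by linarith)
            have e4 : δ * t + δ * q i = δ * (t + q i) := by ring
            have e5 : δ * (3 * (t - q i)) = 3 * (δ * (t - q i)) := by ring
            have e6 : 8 * δ * (t - q i) = 8 * (δ * (t - q i)) := by ring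
            rw [e4]; rw [e5] at h13; rw [e6] at h14
            linarith
          have e3 : μ * (t - q i) + g * (t - q i) = t - q i := by rw [hg]; ring
          linarith
        linarith [h6.1, h7.2]
  -- the sums up to the small points
  have hsumle : ∀ σ : ℝ, 0 < σ → ∀ f : ℕ → ℝ, (∀ i < n, δ * N ≤ q i → f i ≤ marg q σ (3 * N) i) →
      (∀ i < n, f i ≤ 1) →
      ∑ i ∈ Finset.range n, max 0 (f i) ≤ cr q (δ * N) +
        ∑ i ∈ Finset.range n, max 0 (marg q σ (3 * N) i) := by
    intro σ _ f hf hf1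
    have h1 : ∀ i ∈ Finset.range n, max 0 (f i) ≤ (if q i ≤ δ * N then 1 else 0) +
        max 0 (marg q σ (3 * N) i) := by
      intro i hi
      have hi' := Finset.mem_range.mp hi
      have h2 := le_max_left 0 (marg q σ (3 * N) i)
      split_ifs with h3
      · have : max 0 (f i) ≤ 1 := max_le zero_le_one (hf1 i hi')
        linarith
      · rw [zero_add]
        exact max_le_max le_rfl (hf i hi' (not_le.mp h3).le)
    refine (Finset.sum_le_sum h1).trans ?_
    rw [Finset.sum_add_distrib]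
    gcongr
    rw [Finset.sum_ite, Finset.sum_const_zero, add_zero, Finset.sum_const, nsmul_eq_mul, mul_one]
    unfold cr
    have h2 : (Finset.range n).filter (fun i => q i ≤ δ * N) ⊆ Finset.range (cnt q (δ * N)) := by
      intro i hi
      rw [Finset.mem_filter] at hi
      rw [Finset.mem_range, hq.lt_cnt_iff]
      exact hi.2
    have h3 := Finset.card_le_card h2
    rw [Finset.card_range] at h3
    exact_mod_cast h3
  have hm1 : ∀ i < n, marg q (μ / L (q i)) (2 * q i) i ≤ 1 := by
    intro i hi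
    by_cases h0 : 0 ≤ μ / L (q i)
    · have : q 0 ≤ q i := hq.mono.monotone (Nat.zero_le i)
      exact hq.marg_le_one h0 (by linarith [hR.pos])
    · -- the slope is negative: the margin is at most the value at `q i`
      push Not at h0
      have hp0 : 0 < q i := hR.pos.trans_le (hq.mono.monotone (Nat.zero_le i))
      have hb : BddBelow ((fun t => cr q t - i - μ / L (q i) * (t - q i)) ''
          Icc (q i) (2 * q i)) := by
        refine ⟨-i, ?_⟩
        rintro _ ⟨t, ht, rfl⟩
        have h1 : μ / L (q i) * (t - q i) ≤ 0 :=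
          mul_nonpos_of_nonpos_of_nonneg h0.le (by linarith [ht.1])
        have h2 : 0 ≤ cr q t := Nat.cast_nonneg _
        change -(i : ℝ) ≤ cr q t - i - μ / L (q i) * (t - q i)
        linarith
      refine csInf_le hb ⟨q i, ⟨le_rfl, by linarith⟩, ?_⟩
      change cr q (q i) - i - μ / L (q i) * (q i - q i) = 1
      rw [cr, hq.cnt_q, sub_self, mul_zero]
      push_cast; ring
  have h3N : ∀ i < n, q i ≤ 3 * N := fun i hi => by linarith [hqi i hi]
  have hsum₁ := hq.sum_marg hσ₁ h3N
  have hsum₂ := hq.sum_marg hσ₂ h3N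
  constructor
  · -- lower bound
    have h2 : ∑ i ∈ Finset.range n, max 0 (marg q (μ₂ / ℓ) (3 * N) i) ≤ cr q (δ * N) +
        ∑ i ∈ Finset.range n, max 0 (marg q (μ / L (q i)) (2 * q i) i) := by
      have h3 : ∀ i ∈ Finset.range n, max 0 (marg q (μ₂ / ℓ) (3 * N) i) ≤
          (if q i ≤ δ * N then 1 else 0) + max 0 (marg q (μ / L (q i)) (2 * q i) i) := by
        intro i hi
        have hi' := Finset.mem_range.mp hi
        have h2 := le_max_left 0 (marg q (μ / L (q i)) (2 * q i) i)
        split_ifs with h3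
        · have : max 0 (marg q (μ₂ / ℓ) (3 * N) i) ≤ 1 :=
            max_le zero_le_one (hq.marg_le_one hσ₂.le (h3N i hi'))
          linarith
        · rw [zero_add]
          exact max_le_max le_rfl (hcomp i hi' (not_le.mp h3).le).1
      refine (Finset.sum_le_sum h3).trans ?_
      rw [Finset.sum_add_distrib]
      gcongr
      rw [Finset.sum_ite, Finset.sum_const_zero, add_zero, Finset.sum_const, nsmul_eq_mul, mul_one]
      unfold cr
      have h2 : (Finset.range n).filter (fun i => q i ≤ δ * N) ⊆ Finset.range (cnt q (δ * N)) := by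
        intro i hi
        rw [Finset.mem_filter] at hi
        rw [Finset.mem_range, hq.lt_cnt_iff]
        exact hi.2
      have h3 := Finset.card_le_card h2
      rw [Finset.card_range] at h3
      exact_mod_cast h3
    -- the end points are at most `(1 + 4 δ / g) N`
    have hV : volume.real (Ends q (μ₂ / ℓ) (3 * N) n) ≤ (1 + 4 * δ / g) * N := by
      have hsub : Ends q (μ₂ / ℓ) (3 * N) n ⊆ Icc 0 ((1 + 4 * δ / g) * N) := by
        intro v hv
        refine ⟨(hq.ends_subset hR.pos hσ₂ _ _ hv).1, ?_⟩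
        by_contra hvN
        push Not at hvN
        have h4 : 0 ≤ 4 * δ / g := by positivity
        have hvN1 : N ≤ v := by
          have : 0 ≤ 4 * δ / g * N := by positivity
          linarith
        have hB : ∀ i < n, ((i : ℝ) + 1) - μ₂ / ℓ * q i ≤ (1 + δ - μ₂) * u := by
          intro i hi
          have h8 : cr q (q i) = i + 1 := by rw [cr, hq.cnt_q]; push_cast; ring
          have hqp : 0 < q i := hR.pos.trans_le (hq.mono.monotone (Nat.zero_le i))
          have hqu : q i / ℓ ≤ u := div_le_div_of_nonneg_right (hqi i hi) hl.le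
          have hqu0 : 0 ≤ q i / ℓ := by positivity
          have hcoef : 0 ≤ 1 + δ - μ₂ := by linarith
          by_cases h5 : δ * N ≤ q i
          · have h7 := (abs_le.mp (hwin (q i) h5 (by linarith [hqi i hi]))).2
            rw [h8] at h7
            have e : μ₂ / ℓ * q i = μ₂ * (q i / ℓ) := by ring
            rw [e]
            have h9 : (1 + δ - μ₂) * (q i / ℓ) ≤ (1 + δ - μ₂) * u :=
              mul_le_mul_of_nonneg_left hqu hcoef
            linarith
          · push Not at h5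
            have h7 : (i : ℝ) + 1 ≤ cr q (δ * N) := by
              rw [← h8]; exact hq.cr_mono h5.le
            have h9 : 0 ≤ μ₂ / ℓ * q i := by positivity
            have h10 : (1 + δ) * δ * u ≤ (1 + δ - μ₂) * u := by
              apply mul_le_mul_of_nonneg_right _ hu0.le
              have h12 : δ * δ ≤ 1 / 10 * δ := mul_le_mul_of_nonneg_right hδ1 hδ0.le
              have e3 : (1 + δ) * δ = δ + δ * δ := by ring
              rw [e3]; linarith
            linarith
        have h5 := hq.ends_le hσ₂ hB hv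
        have h6 := (abs_le.mp (hwin v (by linarith) hv.1)).1
        have e : μ₂ / ℓ * v = μ₂ * (v / ℓ) := by ring
        rw [e] at h5
        have h7 : (1 - δ - μ₂) * (v / ℓ) ≤ (1 + δ - μ₂) * u := by linarith
        have h8 : (1 - δ - μ₂) * v ≤ (1 + δ - μ₂) * N := by
          have e1 : (1 - δ - μ₂) * (v / ℓ) = ((1 - δ - μ₂) * v) / ℓ := by ring
          have e2 : (1 + δ - μ₂) * u = ((1 + δ - μ₂) * N) / ℓ := by rw [hu]; ring
          rw [e1, e2, div_le_div_iff_of_pos_right hl] at h7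
          exact h7
        have h9 : g / 2 ≤ 1 - δ - μ₂ := by linarith
        have h10 : (1 - δ - μ₂) * ((1 + 4 * δ / g) * N) < (1 - δ - μ₂) * v :=
          mul_lt_mul_of_pos_left hvN (by linarith)
        have h11 : 2 * δ ≤ (1 - δ - μ₂) * (4 * δ / g) := by
          have : g / 2 * (4 * δ / g) = 2 * δ := by field_simp; ring
          rw [← this]
          exact mul_le_mul_of_nonneg_right h9 h4
        have h12 : 2 * δ * N ≤ (1 - δ - μ₂) * (4 * δ / g) * N :=
          mul_le_mul_of_nonneg_right h11 hN.le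
        have e3 : (1 - δ - μ₂) * ((1 + 4 * δ / g) * N) =
          (1 - δ - μ₂) * N + (1 - δ - μ₂) * (4 * δ / g) * N := by ring
        rw [e3] at h10
        have e4 : (1 + δ - μ₂) * N = (1 - δ - μ₂) * N + 2 * δ * N := by ring
        rw [e4] at h8
        linarith
      have := measureReal_mono hsub (measure_Icc_lt_top (μ := volume)).ne
      rw [Real.volume_real_Icc_of_le (by positivity), sub_zero] at this
      exact this
    have h4 : μ₂ / ℓ * volume.real (Ends q (μ₂ / ℓ) (3 * N) n) ≤ μ₂ * (1 + 4 * δ / g) * u := by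
      have := mul_le_mul_of_nonneg_left hV hσ₂.le
      have e : μ₂ / ℓ * ((1 + 4 * δ / g) * N) = μ₂ * (1 + 4 * δ / g) * u := by rw [hu]; ring
      linarith
    have h5 : μ₂ * (1 + 4 * δ / g) + (1 + δ) * δ ≤ (μ + κ) * (1 - δ) := by
      have h6 : δ ≤ δ / g := by
        rw [le_div_iff₀ hg0]
        have : δ * g ≤ δ * 1 := mul_le_mul_of_nonneg_left hg1 hδ0.le
        linarith
      have h7 : 12 * (δ / g) ≤ κ := by
        rw [mul_div_assoc', div_le_iff₀ hg0]; linarith
      have h8 : 0 ≤ δ / g := by positivity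
      have e : 4 * δ / g = 4 * (δ / g) := by ring
      rw [e]
      have h9 : μ₂ * (1 + 4 * (δ / g)) ≤ (μ + 2 * δ) * (1 + 4 * (δ / g)) :=
        mul_le_mul_of_nonneg_right hμ₂μ (by positivity)
      have h10 : μ * (δ / g) ≤ 1 * (δ / g) := mul_le_mul_of_nonneg_right hμ1.le h8
      have h11 : δ * (δ / g) ≤ 1 / 10 * (δ / g) := mul_le_mul_of_nonneg_right hδ1 h8
      have h12 : (1 + δ) * δ ≤ 11 / 10 * (δ / g) := by
        have h14 : δ * δ ≤ 1 / 10 * δ := mul_le_mul_of_nonneg_right hδ1 hδ0.le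
        have e3 : (1 + δ) * δ = δ + δ * δ := by ring
        rw [e3]; linarith
      have h13 : κ * δ ≤ κ * (1 / 10) := mul_le_mul_of_nonneg_left hδ1 hκ.le
      have h14 : μ * δ ≤ 1 * δ := mul_le_mul_of_nonneg_right hμ1.le hδ0.le
      have e4 : (μ + 2 * δ) * (1 + 4 * (δ / g)) =
        μ + 2 * δ + 4 * (μ * (δ / g)) + 8 * (δ * (δ / g)) := by ring
      have e5 : (μ + κ) * (1 - δ) = μ - μ * δ + κ - κ * δ := by ring
      rw [e4] at h9
      rw [e5]
      linarith
    have h6 : (μ₂ * (1 + 4 * δ / g) + (1 + δ) * δ) * u ≤ (μ + κ) * ((1 - δ) * u) := by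
      have := mul_le_mul_of_nonneg_right h5 hu0.le
      linarith
    have h7 : (μ + κ) * ((1 - δ) * u) ≤ (μ + κ) * cr q N :=
      mul_le_mul_of_nonneg_left hn1 (by linarith)
    have h8 : (g - κ) * cr q N = cr q N - (μ + κ) * cr q N := by rw [hg]; ring
    rw [h8]
    linarith
  · -- upper bound
    have h1 := hsumle (μ₁ / ℓ) hσ₁ (fun i => marg q (μ / L (q i)) (2 * q i) i)
      (fun i hi h => (hcomp i hi h).2) hm1
    have hV : N - δ * N ≤ volume.real (Ends q (μ₁ / ℓ) (3 * N) n) := by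
      apply hq.ends_ge hR.pos hσ₁ hM (by linarith) (by linarith)
      · intro v hv1 hv2
        have h2 := (abs_le.mp (hwin v hv1 (by linarith))).1
        have hv0 : 0 < v / ℓ := by
          have : 0 < v := hδN0.trans_le hv1
          positivity
        have e : μ₁ / ℓ * v = μ₁ * (v / ℓ) := by ring
        rw [e]
        have h3 : μ₁ * (v / ℓ) ≤ (1 - 8 * δ) * (v / ℓ) :=
          mul_le_mul_of_nonneg_right (by linarith) hv0.le
        have h4 : 0 < δ * (v / ℓ) := by positivity
        linarith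
      · intro v hv
        exact hq.cnt_mono hv.le
    have h4 : μ₁ * (1 - δ) * u ≤ μ₁ / ℓ * volume.real (Ends q (μ₁ / ℓ) (3 * N) n) := by
      have := mul_le_mul_of_nonneg_left hV hσ₁.le
      have e : μ₁ / ℓ * (N - δ * N) = μ₁ * (1 - δ) * u := by rw [hu]; ring
      linarith
    have h5 : (1 + δ) * δ + μ * (1 + δ) ≤ μ₁ * (1 - δ) + κ * (1 - δ) := by
      have h6 : μ * (1 - 2 * δ) ≤ μ₁ * (1 - δ) := by
        rw [hμ₁, div_mul_eq_mul_div, le_div_iff₀ (by linarith)]
        have h11 : 0 ≤ μ * δ * δ := by positivity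
        have e3 : μ * (1 - 2 * δ) * (1 + δ) = μ * (1 - δ) - 2 * (μ * δ * δ) := by ring
        rw [e3]; linarith
      have h7 : 12 * δ ≤ κ := by
        have : κ * g ≤ κ * 1 := mul_le_mul_of_nonneg_left hg1 hκ.le
        linarith
      have h8 : μ * δ ≤ 1 * δ := mul_le_mul_of_nonneg_right hμ1.le hδ0.le
      have h9 : κ * δ ≤ κ * (1 / 10) := mul_le_mul_of_nonneg_left hδ1 hκ.le
      have h10 : δ * δ ≤ 1 / 10 * δ := mul_le_mul_of_nonneg_right hδ1 hδ0.le
      have e3 : (1 + δ) * δ + μ * (1 + δ) = δ + δ * δ + μ + μ * δ := by ring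
      have e4 : κ * (1 - δ) = κ - κ * δ := by ring
      have e5 : μ * (1 - 2 * δ) = μ - 2 * (μ * δ) := by ring
      rw [e3, e4]
      rw [e5] at h6
      linarith
    have h6 := mul_le_mul_of_nonneg_right h5 hu0.le
    have h7 : μ * cr q N ≤ μ * ((1 + δ) * u) := mul_le_mul_of_nonneg_left hn2 hμ0.le
    have h8 : κ * ((1 - δ) * u) ≤ κ * cr q N := mul_le_mul_of_nonneg_left hn1 hκ.le
    have h9 : (g + κ) * cr q N = cr q N - μ * cr q N + κ * cr q N := by rw [hg]; ring
    rw [h9]
    linarith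

end Pool.Agent.TH110.Zig
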