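import Pool.Agent.TH110.Zig.PrimesRet
import Pool.Agent.TH110.Zig.Mean

/-!
# The mean margin at the primes
-/

set_option autoImplicit false

open MeasureTheory Set Filter Topology

namespace Pool.Agent.TH110.Zig

theorem slowW_log : SlowW Real.log := by
  intro ε δ hε hδ
  filter_upwards [eventually_gt_atTop 0, Real.tendsto_log_atTop.eventually_ge_atTop
    (|Real.log ε| / δ), Real.tendsto_log_atTop.eventually_ge_atTop 0] with N hN hlog hlog0 x h1 h2
  have hx : 0 < x := lt_of_lt_of_le (by positivity) h1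
  rw [div_le_iff₀ hδ] at hlog
  constructor
  · have h3 : Real.log (ε * N) ≤ Real.log x := Real.log_le_log (by positivity) h1
    rw [Real.log_mul hε.ne' hN.ne'] at h3
    have := neg_abs_le (Real.log ε)
    linarith
  · have h3 : Real.log x ≤ Real.log N := Real.log_le_log hx h2
    have h4 : 0 ≤ δ * Real.log N := mul_nonneg hδ.le hlog0
    linarith

/-- `inf_{0 ≤ H ≤ p} (1 + π(p, H) - μ H / log p)` -/
noncomputable def margin (μ : ℝ) (p : ℕ) : ℝ :=
  sInf ((fun H : ℝ => 1 + (((Finset.Ioc p ⌊(p : ℝ) + H⌋₊).filter Nat.Prime).card : ℝ) -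
    μ * H / Real.log p) '' Icc 0 (p : ℝ))

theorem card_Ioc_filter {m n : ℕ} (h : m ≤ n) :
    (((Finset.Ioc m n).filter Nat.Prime).card : ℝ) =
      (Nat.primeCounting n : ℝ) - Nat.primeCounting m := by
  have h1 : ∀ n, Nat.primeCounting n = ((Finset.Ioc 0 n).filter Nat.Prime).card := by
    intro n
    rw [Nat.primeCounting, Nat.primeCounting', Nat.count_eq_card_filter_range]
    congr 1
    ext p
    simp only [Finset.mem_filter, Finset.mem_Ioc, Finset.mem_range]
    constructor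
    · rintro ⟨h1, h2⟩; exact ⟨⟨h2.pos, by omega⟩, h2⟩
    · rintro ⟨h1, h2⟩; exact ⟨by omega, h2⟩
  have h2 : ((Finset.Ioc 0 m).filter Nat.Prime).card + ((Finset.Ioc m n).filter Nat.Prime).card =
      ((Finset.Ioc 0 n).filter Nat.Prime).card := by
    rw [← Finset.card_union_of_disjoint]
    · congr 1
      rw [← Finset.filter_union, Finset.Ioc_union_Ioc_eq_Ioc (Nat.zero_le _) h]
    · apply Finset.disjoint_filter_filter
      rw [Finset.disjoint_left]
      intro x hx hx'
      rw [Finset.mem_Ioc] at hx hx'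
      omega
  rw [h1 n, h1 m, ← h2]; push_cast; ring

theorem margin_eq (μ : ℝ) (i : ℕ) :
    margin μ (Nat.nth Nat.Prime i) = marg qp (μ / Real.log (qp i)) (2 * qp i) i := by
  set p := Nat.nth Nat.Prime i with hp
  have hqp : qp i = (p : ℝ) := rfl
  unfold margin marg
  congr 1
  rw [hqp]
  have hcnt : (Nat.primeCounting p : ℝ) = i + 1 := by
    have := pts_qp.cnt_q i
    rw [cnt_qp, hqp, Nat.floor_natCast] at this
    rw [this]; push_cast; ring
  have hval : ∀ H : ℝ, 0 ≤ H → 1 + (((Finset.Ioc p ⌊(p : ℝ) + H⌋₊).filter Nat.Prime).card : ℝ) -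
      μ * H / Real.log p = cr qp (p + H) - i - μ / Real.log p * (p + H - p) := by
    intro H hH
    have h1 : p ≤ ⌊(p : ℝ) + H⌋₊ := Nat.le_floor (by linarith)
    rw [card_Ioc_filter h1, hcnt, cr_qp, prc]
    ring
  ext z
  simp only [mem_image, mem_Icc]
  constructor
  · rintro ⟨H, ⟨h0, h1⟩, rfl⟩
    exact ⟨p + H, ⟨by linarith, by linarith⟩, (hval H h0).symm⟩
  · rintro ⟨t, ⟨h0, h1⟩, rfl⟩
    refine ⟨t - p, ⟨by linarith, by linarith⟩, ?_⟩
    rw [hval (t - p) (by linarith)]
    have e : (p : ℝ) + (t - p) = t := by ring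
    rw [e]

theorem sum_primes_eq (f : ℕ → ℝ) (N : ℕ) :
    ∑ p ∈ (Finset.range (N + 1)).filter Nat.Prime, f p =
      ∑ i ∈ Finset.range (Nat.primeCounting N), f (Nat.nth Nat.Prime i) := by
  have hinj : Function.Injective (Nat.nth Nat.Prime) :=
    (Nat.nth_strictMono Nat.infinite_setOfPred_prime).injective
  have e : (Finset.range (N + 1)).filter Nat.Prime =
      (Finset.range (Nat.primeCounting N)).image (Nat.nth Nat.Prime) := by
    ext p
    simp only [Finset.mem_filter, Finset.mem_range, Finset.mem_image]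
    constructor
    · rintro ⟨h1, h2⟩
      refine ⟨Nat.count Nat.Prime p, ?_, Nat.nth_count h2⟩
      rw [Nat.primeCounting, Nat.primeCounting',
        Nat.lt_nth_iff_count_lt Nat.infinite_setOfPred_prime, Nat.nth_count h2]
      exact h1
    · rintro ⟨i, h1, rfl⟩
      refine ⟨?_, Nat.nth_mem_of_infinite Nat.infinite_setOfPred_prime i⟩
      rw [Nat.primeCounting, Nat.primeCounting',
        Nat.lt_nth_iff_count_lt Nat.infinite_setOfPred_prime] at h1
      exact h1
  rw [e, Finset.sum_image fun i _ j _ h => hinj h]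

/-- the mean over the primes `p ≤ N` of the positive part of the margin -/
noncomputable def meanMargin (μ : ℝ) (N : ℕ) : ℝ :=
  (∑ p ∈ (Finset.range (N + 1)).filter Nat.Prime, max 0 (margin μ p)) / Nat.primeCounting N

theorem meanMargin_eventually {μ κ : ℝ} (hμ0 : 0 < μ) (hμ1 : μ < 1) (hκ : 0 < κ) :
    ∀ᶠ N : ℕ in atTop, 1 - μ - κ ≤ meanMargin μ N ∧ meanMargin μ N ≤ 1 - μ + κ := by
  have h := (reg_qp.mean_marg slowW_log hμ0 hμ1 hκ)
  have h2 := tendsto_natCast_atTop_atTop.eventually h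
  filter_upwards [h2, eventually_ge_atTop 2] with N hN hN2
  have e : ∑ i ∈ Finset.range (cnt qp (N : ℝ)), max 0 (marg qp (μ / Real.log (qp i)) (2 * qp i) i) =
      ∑ p ∈ (Finset.range (N + 1)).filter Nat.Prime, max 0 (margin μ p) := by
    rw [sum_primes_eq (fun p => max 0 (margin μ p)), cnt_qp, Nat.floor_natCast]
    exact Finset.sum_congr rfl fun i _ => by rw [margin_eq]
  have e2 : cr qp (N : ℝ) = Nat.primeCounting N := by rw [cr_qp, prc, Nat.floor_natCast]
  rw [e, e2] at hN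
  have hpos : (0 : ℝ) < Nat.primeCounting N := by
    have : 0 < Nat.primeCounting N := by
      have h3 : Nat.primeCounting 2 ≤ Nat.primeCounting N := Nat.monotone_primeCounting hN2
      have h4 : Nat.primeCounting 2 = 1 := by decide
      omega
    exact_mod_cast this
  unfold meanMargin
  rw [le_div_iff₀ hpos, div_le_iff₀ hpos]
  exact hN

theorem margin_bdd {μ : ℝ} (hμ : 0 ≤ μ) (p : ℕ) :
    BddBelow ((fun H : ℝ => 1 + (((Finset.Ioc p ⌊(p : ℝ) + H⌋₊).filter Nat.Prime).card : ℝ) -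
      μ * H / Real.log p) '' Icc 0 (p : ℝ)) := by
  have hl : 0 ≤ Real.log p := Real.log_natCast_nonneg p
  refine ⟨- (μ * p / Real.log p), ?_⟩
  rintro _ ⟨H, ⟨h0, h1⟩, rfl⟩
  have h2 : μ * H / Real.log p ≤ μ * p / Real.log p :=
    div_le_div_of_nonneg_right (mul_le_mul_of_nonneg_left h1 hμ) hl
  have h3 : (0 : ℝ) ≤ (((Finset.Ioc p ⌊(p : ℝ) + H⌋₊).filter Nat.Prime).card : ℝ) :=
    Nat.cast_nonneg _
  change - (μ * p / Real.log p) ≤ 1 + _ - μ * H / Real.log p
  linarith

theorem margin_anti {μ ν : ℝ} (hμ : 0 ≤ μ) (h : μ ≤ ν) (p : ℕ) : margin ν p ≤ margin μ p := by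
  have hl : 0 ≤ Real.log p := Real.log_natCast_nonneg p
  refine le_csInf ⟨_, 0, ⟨le_rfl, Nat.cast_nonneg p⟩, rfl⟩ ?_
  rintro _ ⟨H, ⟨h0, h1⟩, rfl⟩
  have h2 : margin ν p ≤ 1 + (((Finset.Ioc p ⌊(p : ℝ) + H⌋₊).filter Nat.Prime).card : ℝ) -
      ν * H / Real.log p := csInf_le (margin_bdd (hμ.trans h) p) ⟨H, ⟨h0, h1⟩, rfl⟩
  have h3 : μ * H / Real.log p ≤ ν * H / Real.log p :=
    div_le_div_of_nonneg_right (mul_le_mul_of_nonneg_right h h0) hl
  change margin ν p ≤ 1 + _ - μ * H / Real.log p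
  linarith

theorem margin_le_one {μ : ℝ} (hμ : 0 ≤ μ) (p : ℕ) : margin μ p ≤ 1 := by
  refine csInf_le (margin_bdd hμ p) ⟨0, ⟨le_rfl, Nat.cast_nonneg p⟩, ?_⟩
  simp

theorem meanMargin_anti {μ ν : ℝ} (hμ : 0 ≤ μ) (h : μ ≤ ν) (N : ℕ) :
    meanMargin ν N ≤ meanMargin μ N := by
  unfold meanMargin
  apply div_le_div_of_nonneg_right _ (Nat.cast_nonneg _)
  exact Finset.sum_le_sum fun p _ => max_le_max le_rfl (margin_anti hμ h p)

theorem meanMargin_nonneg (μ : ℝ) (N : ℕ) : 0 ≤ meanMargin μ N := by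
  unfold meanMargin
  apply div_nonneg _ (Nat.cast_nonneg _)
  exact Finset.sum_nonneg fun p _ => le_max_left _ _

theorem meanMargin_le_one {μ : ℝ} (hμ : 0 ≤ μ) (N : ℕ) : meanMargin μ N ≤ 1 := by
  unfold meanMargin
  apply div_le_one_of_le₀ _ (Nat.cast_nonneg _)
  rw [sum_primes_eq (fun p => max 0 (margin μ p))]
  calc ∑ i ∈ Finset.range (Nat.primeCounting N), max 0 (margin μ (Nat.nth Nat.Prime i))
      ≤ ∑ i ∈ Finset.range (Nat.primeCounting N), (1 : ℝ) :=
        Finset.sum_le_sum fun i _ => max_le zero_le_one (margin_le_one hμ _)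
    _ = Nat.primeCounting N := by
        rw [Finset.sum_const, Finset.card_range, nsmul_eq_mul, mul_one]

theorem meanMargin_tendsto {μ : ℝ} (hμ : 0 ≤ μ) :
    Tendsto (meanMargin μ) atTop (𝓝 (max 0 (1 - μ))) := by
  rw [Metric.tendsto_nhds]
  intro ε hε
  rcases hμ.eq_or_lt with h0 | h0
  · -- `μ = 0`
    subst h0
    set κ : ℝ := min (1 / 2) (ε / 3) with hκ
    have hκ0 : 0 < κ := by positivity
    have hκε : κ ≤ ε / 3 := min_le_right _ _
    have hκ1 : κ ≤ 1 / 2 := min_le_left _ _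
    filter_upwards [meanMargin_eventually hκ0 (by linarith) hκ0] with N hN
    rw [sub_zero, max_eq_right zero_le_one, Real.dist_eq, abs_lt]
    have h1 := meanMargin_le_one le_rfl N
    have h2 := meanMargin_anti le_rfl hκ0.le N
    constructor <;> linarith
  · rcases lt_or_ge μ 1 with h1 | h1
    · filter_upwards [meanMargin_eventually h0 h1 (κ := ε / 2) (by positivity)] with N hN
      rw [max_eq_right (by linarith), Real.dist_eq, abs_lt]
      constructor <;> linarith
    · set κ : ℝ := min (1 / 2) (ε / 3) with hκ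
      have hκ0 : 0 < κ := by positivity
      have hκε : κ ≤ ε / 3 := min_le_right _ _
      have hκ1 : κ ≤ 1 / 2 := min_le_left _ _
      filter_upwards [meanMargin_eventually (μ := 1 - κ) (by linarith) (by linarith) hκ0]
        with N hN
      rw [max_eq_left (by linarith), Real.dist_eq, abs_lt]
      have h2 := meanMargin_nonneg μ N
      have h3 := meanMargin_anti (μ := 1 - κ) (ν := μ) (by linarith) (by linarith) N
      constructor <;> linarith

end Pool.Agent.TH110.Zig
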