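import Mathlib

/-!
# Lines and staircases

`q 0 < q 1 < ...` are points on the real line tending to infinity, `cnt q v` is the number of points
`≤ v`. From a point `v` follow the line of slope `b` through `(v, cnt q v)` to the right until it hits
the staircase `cnt q` (with its vertical segments filled in): it hits it in a vertical segment, at
height `y`. From there follow the line of slope `a` until it hits the staircase again: it hits it in
a horizontal segment, above the point `v'`. Both maps are injective, affine on countably many pieces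
and scale the measure by `b` and `1 / a`.
-/

set_option autoImplicit false

open MeasureTheory Set Filter

namespace Pool.Agent.TH110.Zig

/-- the number of points `≤ v` of an increasing sequence tending to infinity -/
noncomputable def cnt (q : ℕ → ℝ) (v : ℝ) : ℕ := sInf {j | v < q j}

/-- an increasing sequence of points tending to infinity -/
structure Pts (q : ℕ → ℝ) : Prop where
  mono : StrictMono q
  top : Tendsto q atTop atTop

variable {q : ℕ → ℝ}

theorem Pts.lt_cnt (hq : Pts q) (v : ℝ) : v < q (cnt q v) := by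
  have h : {j | v < q j}.Nonempty := (hq.top.eventually_gt_atTop v).exists
  exact Nat.sInf_mem h

theorem Pts.cnt_le_iff (hq : Pts q) (v : ℝ) (j : ℕ) : cnt q v ≤ j ↔ v < q j := by
  constructor
  · intro h
    exact (hq.lt_cnt v).trans_le (hq.mono.monotone h)
  · intro h
    exact Nat.sInf_le h

theorem Pts.lt_cnt_iff (hq : Pts q) (v : ℝ) (j : ℕ) : j < cnt q v ↔ q j ≤ v := by
  rw [← not_le, hq.cnt_le_iff, not_lt]

theorem Pts.cnt_mono (hq : Pts q) : Monotone (cnt q) := by
  intro v w h
  rw [hq.cnt_le_iff]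
  exact h.trans_lt (hq.lt_cnt w)

theorem Pts.cnt_q (hq : Pts q) (i : ℕ) : cnt q (q i) = i + 1 := by
  apply le_antisymm
  · rw [hq.cnt_le_iff]
    exact hq.mono (Nat.lt_succ_self i)
  · rw [Nat.succ_le_iff, hq.lt_cnt_iff]

/-- the line of slope `b` from `v`, `cnt q v = j`, hits the staircase first at the point `i` -/
def PB (q : ℕ → ℝ) (b : ℝ) (j i : ℕ) (v : ℝ) : Prop :=
  cnt q v = j ∧ j ≤ i ∧ (j : ℝ) + b * (q i - v) ≤ i + 1 ∧
    ∀ l, j ≤ l → l < i → (l : ℝ) + 1 < j + b * (q l - v)

/-- the line of slope `a` from the point `(q i, y)` of the vertical segment at `q i` hits the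
staircase first at height `m` -/
def PC (q : ℕ → ℝ) (a : ℝ) (i m : ℕ) (y : ℝ) : Prop :=
  (i : ℝ) < y ∧ y ≤ i + 1 ∧ i < m ∧ (∀ l, i < l → l < m → y + a * (q l - q i) ≤ l) ∧
    (m : ℝ) < y + a * (q m - q i)

/-- the line of slope `b` from `v` hits the staircase first at height `y` -/
def RB (q : ℕ → ℝ) (b : ℝ) (v y : ℝ) : Prop := ∃ j i, PB q b j i v ∧ y = j + b * (q i - v)

/-- the line of slope `a` from the point of height `y` of a vertical segment hits the staircase
first above `v'` -/
def RC (q : ℕ → ℝ) (a : ℝ) (y v' : ℝ) : Prop := ∃ i m, PC q a i m y ∧ v' = q i + (m - y) / a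

theorem PB.lt (hq : Pts q) {b : ℝ} {j i : ℕ} {v : ℝ} (h : PB q b j i v) : v < q i := by
  obtain ⟨h1, h2, -, -⟩ := h
  rw [← hq.cnt_le_iff, h1]; exact h2

theorem PB.y_gt (hq : Pts q) {b : ℝ} (hb : 0 < b) {j i : ℕ} {v : ℝ} (h : PB q b j i v) :
    (i : ℝ) < j + b * (q i - v) := by
  have hv := h.lt hq
  obtain ⟨h1, h2, h3, h4⟩ := h
  rcases Nat.eq_or_lt_of_le h2 with h5 | h5
  · subst h5
    have : 0 < b * (q j - v) := mul_pos hb (by linarith)
    linarith
  · have h6 := h4 (i - 1) (by omega) (by omega)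
    have h7 : q (i - 1) < q i := hq.mono (by omega)
    have h8 : ((i - 1 : ℕ) : ℝ) + 1 = i := by
      rw [Nat.cast_sub (by omega)]; simp
    rw [h8] at h6
    have : b * (q (i - 1) - v) < b * (q i - v) := by
      apply mul_lt_mul_of_pos_left _ hb; linarith
    linarith

theorem PB.unique {b : ℝ} {j i j' i' : ℕ} {v : ℝ} (h : PB q b j i v)
    (h' : PB q b j' i' v) : j = j' ∧ i = i' := by
  have e1 : j = j' := h.1.symm.trans h'.1
  subst e1
  refine ⟨rfl, ?_⟩
  obtain ⟨h1, h2, h3, h4⟩ := h
  obtain ⟨h1', h2', h3', h4'⟩ := h'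
  by_contra hne
  rcases Nat.lt_or_gt_of_ne hne with h5 | h5
  · have := h4' i h2 h5
    linarith
  · have := h4 i' h2' h5
    linarith

theorem cast_between {i i' : ℕ} {y : ℝ} (h1 : (i : ℝ) < y) (h2 : y ≤ i + 1) (h1' : (i' : ℝ) < y)
    (h2' : y ≤ i' + 1) : i = i' := by
  have h3 : (i : ℝ) < i' + 1 := by linarith
  have h4 : (i' : ℝ) < i + 1 := by linarith
  have h5 : i < i' + 1 := by exact_mod_cast h3
  have h6 : i' < i + 1 := by exact_mod_cast h4
  omega

theorem PB.inj (hq : Pts q) {b : ℝ} (hb : 0 < b) {j i j' i' : ℕ} {v v' : ℝ} (h : PB q b j i v)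
    (h' : PB q b j' i' v') (hy : (j : ℝ) + b * (q i - v) = j' + b * (q i' - v')) :
    j = j' ∧ i = i' ∧ v = v' := by
  have hi : i = i' := cast_between (h.y_gt hq hb) h.2.2.1 (hy ▸ h'.y_gt hq hb) (hy ▸ h'.2.2.1)
  subst hi
  -- wlog argument done twice
  have key : ∀ (j j' : ℕ) (v v' : ℝ), PB q b j i v → PB q b j' i v' →
      (j : ℝ) + b * (q i - v) = j' + b * (q i - v') → ¬ j < j' := by
    intro j j' v v' h h' hy hlt
    obtain ⟨h1, h2, h3, h4⟩ := h
    obtain ⟨h1', h2', h3', h4'⟩ := h'
    have h5 := h4 (j' - 1) (by omega) (by omega)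
    have h6 : ((j' - 1 : ℕ) : ℝ) + 1 = j' := by
      rw [Nat.cast_sub (by omega)]; simp
    rw [h6] at h5
    have h7 : q (j' - 1) ≤ v' := by
      rw [← hq.lt_cnt_iff, h1']; omega
    have h8 : b * (q (j' - 1) - v) = (j' : ℝ) - j + b * (q (j' - 1) - v') := by
      have : b * (q i - v) - b * (q i - v') = j' - j := by linarith
      have : b * (v' - v) = j' - j := by linarith
      nlinarith
    have h9 : b * (q (j' - 1) - v') ≤ 0 := mul_nonpos_of_nonneg_of_nonpos hb.le (by linarith)
    linarith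
  have hj : j = j' := by
    by_contra hne
    rcases Nat.lt_or_gt_of_ne hne with h5 | h5
    · exact key j j' v v' h h' hy h5
    · exact key j' j v' v h' h hy.symm h5
  subst hj
  refine ⟨rfl, rfl, ?_⟩
  have : b * (q i - v) = b * (q i - v') := by linarith
  have := mul_left_cancel₀ hb.ne' this
  linarith

theorem PC.quot_nonneg {a : ℝ} (ha : 0 < a) {i m : ℕ} {y : ℝ} (h : PC q a i m y) :
    0 ≤ (m - y) / a := by
  obtain ⟨h1, h2, h3, -, -⟩ := h
  apply _root_.div_nonneg _ ha.le
  have : (i : ℝ) + 1 ≤ m := by exact_mod_cast h3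
  linarith

theorem PC.cnt_eq (hq : Pts q) {a : ℝ} (ha : 0 < a) {i m : ℕ} {y : ℝ} (h : PC q a i m y) :
    cnt q (q i + (m - y) / a) = m := by
  have h0 := h.quot_nonneg ha
  obtain ⟨h1, h2, h3, h4, h5⟩ := h
  apply le_antisymm
  · rw [hq.cnt_le_iff]
    have : (m - y) / a < q m - q i := by
      rw [div_lt_iff₀ ha]; nlinarith
    linarith
  · by_contra hlt
    push Not at hlt
    have h6 := hq.lt_cnt (q i + (m - y) / a)
    set c := cnt q (q i + (m - y) / a) with hc
    have h7 : i < c := by
      rw [hc, hq.lt_cnt_iff]; linarith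
    have h8 := h4 c h7 hlt
    have h9 : (m - y) / a < q c - q i := by linarith
    rw [div_lt_iff₀ ha] at h9
    have h10 : (c : ℝ) < m := by exact_mod_cast hlt
    nlinarith

theorem PC.unique {a : ℝ} {i m i' m' : ℕ} {y : ℝ} (h : PC q a i m y)
    (h' : PC q a i' m' y) : i = i' ∧ m = m' := by
  have hi : i = i' := cast_between h.1 h.2.1 h'.1 h'.2.1
  subst hi
  refine ⟨rfl, ?_⟩
  obtain ⟨h1, h2, h3, h4, h5⟩ := h
  obtain ⟨h1', h2', h3', h4', h5'⟩ := h'
  by_contra hne
  rcases Nat.lt_or_gt_of_ne hne with h6 | h6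
  · have := h4' m h3 h6
    linarith
  · have := h4 m' h3' h6
    linarith

theorem PC.inj (hq : Pts q) {a : ℝ} (ha : 0 < a) {i m i' m' : ℕ} {y y' : ℝ} (h : PC q a i m y)
    (h' : PC q a i' m' y') (hv : q i + (m - y) / a = q i' + (m' - y') / a) :
    i = i' ∧ m = m' ∧ y = y' := by
  have hm : m = m' := by
    rw [← h.cnt_eq hq ha, ← h'.cnt_eq hq ha, hv]
  subst hm
  have key : ∀ (i i' : ℕ) (y y' : ℝ), PC q a i m y → PC q a i' m y' →
      q i + (m - y) / a = q i' + (m - y') / a → ¬ i < i' := by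
    intro i i' y y' h h' hv hlt
    have h6 := h.2.2.2.1 i' hlt h'.2.2.1
    have h7 := h'.1
    have h8 : a * (q i + (m - y) / a) = a * (q i' + (m - y') / a) := by rw [hv]
    have e1 : a * (q i + (m - y) / a) = a * q i + (m - y) := by field_simp
    have e2 : a * (q i' + (m - y') / a) = a * q i' + (m - y') := by field_simp
    rw [e1, e2] at h8
    nlinarith
  have hi : i = i' := by
    by_contra hne
    rcases Nat.lt_or_gt_of_ne hne with h5 | h5
    · exact key i i' y y' h h' hv h5
    · exact key i' i y' y h' h hv.symm h5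
  subst hi
  refine ⟨rfl, rfl, ?_⟩
  have h1 : (m - y) / a = (m - y') / a := by linarith
  rw [div_left_inj' ha.ne'] at h1
  linarith

end Pool.Agent.TH110.Zig
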