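import Pool.Agent.TH110.Zig.Step

/-!
# The law of the zigzags

`Reg q L`: in every window `[ε N, K N]` the points `q` have density `1 / L N` up to `o(1)`.
-/

set_option autoImplicit false

open MeasureTheory Set Filter Topology

namespace Pool.Agent.TH110.Zig

variable {q : ℕ → ℝ} {L : ℝ → ℝ}

/-- the points have density `1 / L N` in the windows `[ε N, K N]` -/
structure Reg (q : ℕ → ℝ) (L : ℝ → ℝ) : Prop where
  pts : Pts q
  pos : 0 < q 0
  lpos : ∀ᶠ N : ℝ in atTop, 0 < L N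
  win : ∀ ε K δ : ℝ, 0 < ε → 0 < δ → ∀ᶠ N : ℝ in atTop, ∀ v : ℝ, ε * N ≤ v → v ≤ K * N →
    |cr q v - v / L N| ≤ δ * (v / L N)

theorem Zigzag.lt {F : ℝ → ℝ} {a b x t : ℝ} (h : Zigzag F a b x t) : x < t := by
  obtain ⟨s, h1, h2⟩ := h
  exact h1.1.1.trans_le h2.1.1

theorem Dom_subset {a b N : ℝ} {A : Set ℝ} (hA : A ⊆ Icc 0 N) : Dom q a b A ⊆ Icc 0 N := by
  rintro x ⟨h0, t, ht, h⟩
  exact ⟨h0, h.lt.le.trans (hA ht).2⟩

theorem real_ne_top {N : ℝ} {A : Set ℝ} (hA : A ⊆ Icc 0 N) : volume A ≠ ⊤ :=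
  ((measure_mono hA).trans_lt measure_Icc_lt_top).ne

/-- the upper bound for the real measure, for slopes `a / L`, `b / L` -/
theorem Pts.real_Dom_le (hq : Pts q) {a b M : ℝ} (ha : 0 < a) (hb : 0 < b) {A : Set ℝ}
    (hA : MeasurableSet A) (hAM : A ⊆ Icc 0 M) {l : ℝ} (hl : 0 < l) :
    volume.real (Dom q (a / l) (b / l) A) ≤ a / b * volume.real A := by
  have haL : 0 < a / l := by positivity
  have hbL : 0 < b / l := by positivity
  have hfin := real_ne_top hAM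
  have h1 := hq.vol_Dom_le haL hbL hA
  have h2 := ENNReal.toReal_mono (ENNReal.mul_ne_top ENNReal.ofReal_ne_top hfin) h1
  rw [ENNReal.toReal_mul, ENNReal.toReal_mul, ENNReal.toReal_ofReal haL.le,
    ENNReal.toReal_ofReal hbL.le] at h2
  change b / l * volume.real (Dom q (a / l) (b / l) A) ≤ a / l * volume.real A at h2
  rw [div_mul_eq_mul_div, le_div_iff₀ hb]
  have h3 : b / l * volume.real (Dom q (a / l) (b / l) A) =
    volume.real (Dom q (a / l) (b / l) A) * b / l := by ring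
  have h4 : a / l * volume.real A = a * volume.real A / l := by ring
  rw [h3, h4, div_le_div_iff_of_pos_right hl] at h2
  exact h2

/-- One zigzag. -/
theorem Reg.one_step (hR : Reg q L) {a b : ℝ} (ha : 0 < a) (ha1 : a < 1) (hb1 : 1 < b) {ε : ℝ}
    (hε : 0 < ε) :
    ∀ᶠ N : ℝ in atTop, ∀ A : Set ℝ, A ⊆ Icc 0 N → MeasurableSet A →
      volume.real (Dom q (a / L N) (b / L N) A) ≤ a / b * volume.real A ∧
      a / b * volume.real A - ε * N ≤
        volume.real (Dom q (a / L N) (b / L N) A) := by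
  have hb : 0 < b := by linarith
  set e₁ : ℝ := min (ε / 4) 1 with he₁
  have he₁0 : 0 < e₁ := by rw [he₁]; positivity
  have he₁ε : 4 * e₁ ≤ ε := by
    have := min_le_left (ε / 4) 1
    rw [← he₁] at this; linarith
  have he₁1 : e₁ ≤ 1 := min_le_right _ _
  set δ : ℝ := min 1 (min ((1 - a) / 2) (b - 1)) with hδ
  have hδ0 : 0 < δ := by
    rw [hδ]; apply lt_min one_pos (lt_min (by linarith) (by linarith))
  have hδ1 : δ ≤ 1 := min_le_left _ _
  have hδa : δ ≤ (1 - a) / 2 := (min_le_right _ _).trans (min_le_left _ _)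
  have hδb : δ ≤ b - 1 := (min_le_right _ _).trans (min_le_right _ _)
  filter_upwards [hR.win e₁ 1 δ he₁0 hδ0, hR.lpos, eventually_gt_atTop 0,
    eventually_ge_atTop (q 0 / e₁)] with N hN hL hN0 hN2 A hAN hA
  set ℓ := L N with hLdef
  have hM2 : q 0 ≤ e₁ * N := by
    rw [div_le_iff₀ he₁0] at hN2; linarith
  have hM0' : 0 < e₁ * N := by positivity
  have haL : 0 < a / ℓ := by positivity
  have hbL : 0 < b / ℓ := by positivity
  have hfin := real_ne_top hAN
  have hfinD := real_ne_top (Dom_subset (q := q) (a := a / ℓ) (b := b / ℓ) hAN)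
  -- the density
  have hlow : ∀ v, e₁ * N ≤ v → v ≤ N → a / ℓ * v < cr q v := by
    intro v h1 h2
    have h3 := (abs_le.mp (hN v h1 (by linarith))).1
    have h4 : 0 < v / ℓ := div_pos (by linarith) hL
    have e : a / ℓ * v = a * (v / ℓ) := by ring
    rw [e]
    nlinarith
  have hhigh : ∀ v, e₁ * N ≤ v → v ≤ N → cr q v ≤ (1 + δ) * (v / ℓ) := by
    intro v h1 h2
    have h3 := (abs_le.mp (hN v h1 (by linarith))).2
    linarith
  refine ⟨hR.pts.real_Dom_le ha hb hA hAN hL, ?_⟩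
  have h1 := hR.pts.vol_Dom_ge hR.pos haL hbL hM2 hA (fun v hv h => hlow v h (hAN hv).2)
    (fun v hv w h h' => by
      have h2 := hhigh w h (h'.trans (hAN hv).2)
      have h3 : 0 < w / ℓ := div_pos (by nlinarith) hL
      have e : b / ℓ * w = b * (w / ℓ) := by ring
      rw [e]
      nlinarith)
  have hempty : A ∩ Iio 0 = ∅ := by
    ext v
    simp only [mem_inter_iff, mem_Iio, mem_empty_iff_false, iff_false, not_and, not_lt]
    intro hv; exact (hAN hv).1
  rw [hempty, measure_empty, mul_zero, add_zero] at h1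
  have hM0 : 0 ≤ e₁ * N := by linarith
  have hp0 : 0 ≤ cr q (e₁ * N) := Nat.cast_nonneg _
  have h2 := ENNReal.toReal_mono (by
    apply ENNReal.add_ne_top.mpr ⟨ENNReal.mul_ne_top ENNReal.ofReal_ne_top hfinD, ?_⟩
    exact ENNReal.add_ne_top.mpr ⟨ENNReal.mul_ne_top ENNReal.ofReal_ne_top ENNReal.ofReal_ne_top,
      ENNReal.ofReal_ne_top⟩) h1
  rw [ENNReal.toReal_add (ENNReal.mul_ne_top ENNReal.ofReal_ne_top hfinD)
    (ENNReal.add_ne_top.mpr ⟨ENNReal.mul_ne_top ENNReal.ofReal_ne_top ENNReal.ofReal_ne_top,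
      ENNReal.ofReal_ne_top⟩),
    ENNReal.toReal_add (ENNReal.mul_ne_top ENNReal.ofReal_ne_top ENNReal.ofReal_ne_top)
      ENNReal.ofReal_ne_top, ENNReal.toReal_mul, ENNReal.toReal_mul, ENNReal.toReal_mul,
    ENNReal.toReal_ofReal haL.le, ENNReal.toReal_ofReal hbL.le, ENNReal.toReal_ofReal hM0,
    ENNReal.toReal_ofReal hp0] at h2
  change a / ℓ * volume.real A ≤ b / ℓ * volume.real (Dom q (a / ℓ) (b / ℓ) A) +
    (a / ℓ * (e₁ * N) + cr q (e₁ * N)) at h2
  have h3 := hhigh (e₁ * N) le_rfl (by nlinarith)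
  have h4 : cr q (e₁ * N) ≤ 2 * (e₁ * N) / ℓ := by
    refine h3.trans ?_
    have e : 2 * (e₁ * N) / ℓ = 2 * (e₁ * N / ℓ) := by ring
    rw [e]
    exact mul_le_mul_of_nonneg_right (by linarith) (div_nonneg hM0 hL.le)
  have h5 : a * volume.real A ≤ b * volume.real (Dom q (a / ℓ) (b / ℓ) A) + (a * (e₁ * N) +
      2 * (e₁ * N)) := by
    have h6 : a / ℓ * volume.real A ≤ b / ℓ * volume.real (Dom q (a / ℓ) (b / ℓ) A) +
      (a / ℓ * (e₁ * N) + 2 * (e₁ * N) / ℓ) := by linarith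
    have e1 : a / ℓ * volume.real A = (a * volume.real A) / ℓ := by ring
    have e2 : b / ℓ * volume.real (Dom q (a / ℓ) (b / ℓ) A) +
      (a / ℓ * (e₁ * N) + 2 * (e₁ * N) / ℓ) = (b * volume.real (Dom q (a / ℓ) (b / ℓ) A) +
        (a * (e₁ * N) + 2 * (e₁ * N))) / ℓ := by ring
    rw [e1, e2, div_le_div_iff_of_pos_right hL] at h6
    exact h6
  have h6 : a / b * volume.real A ≤ volume.real (Dom q (a / ℓ) (b / ℓ) A) +
      (a * (e₁ * N) + 2 * (e₁ * N)) := by
    rw [div_mul_eq_mul_div, div_le_iff₀ hb]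
    have h7 : 0 ≤ a * (e₁ * N) + 2 * (e₁ * N) := by positivity
    have h8 : (a * (e₁ * N) + 2 * (e₁ * N)) * 1 ≤ (a * (e₁ * N) + 2 * (e₁ * N)) * b :=
      mul_le_mul_of_nonneg_left hb1.le h7
    linarith
  nlinarith

/-- the path of the zigzags with the slopes of the list divided by `l` -/
def Path (F : ℝ → ℝ) (l : ℝ) : List (ℝ × ℝ) → ℝ → ℝ → Prop
  | [], x, t => x = t
  | c :: cs, x, t => ∃ u, Zigzag F (c.2 / l) (c.1 / l) x u ∧ Path F l cs u t

def DomL (q : ℕ → ℝ) (l : ℝ) (cs : List (ℝ × ℝ)) (A : Set ℝ) : Set ℝ :=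
  {x | 0 ≤ x ∧ ∃ t ∈ A, Path (cr q) l cs x t}

theorem DomL_cons (l : ℝ) (c : ℝ × ℝ) (cs : List (ℝ × ℝ)) (A : Set ℝ) :
    DomL q l (c :: cs) A = Dom q (c.2 / l) (c.1 / l) (DomL q l cs A) := by
  ext x
  simp only [DomL, Dom, Path, mem_ofPred_eq]
  constructor
  · rintro ⟨h0, t, ht, u, h1, h2⟩
    exact ⟨h0, u, ⟨h0.trans h1.lt.le, t, ht, h2⟩, h1⟩
  · rintro ⟨h0, u, ⟨-, t, ht, h2⟩, h1⟩
    exact ⟨h0, t, ht, u, h1, h2⟩

theorem DomL_nil (l N : ℝ) {A : Set ℝ} (hA : A ⊆ Icc 0 N) : DomL q l [] A = A := by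
  ext x
  simp only [DomL, Path, mem_ofPred_eq]
  constructor
  · rintro ⟨-, t, ht, rfl⟩; exact ht
  · intro hx; exact ⟨(hA hx).1, x, hx, rfl⟩

/-- **The law of the zigzags.** -/
theorem Reg.law (hR : Reg q L) (cs : List (ℝ × ℝ))
    (hcs : ∀ c ∈ cs, 1 < c.1 ∧ 0 < c.2 ∧ c.2 < 1) :
    ∀ ε : ℝ, 0 < ε → ∀ᶠ N : ℝ in atTop, ∀ A : Set ℝ, A ⊆ Icc 0 N → MeasurableSet A →
      MeasurableSet (DomL q (L N) cs A) ∧ DomL q (L N) cs A ⊆ Icc 0 N ∧
      volume.real (DomL q (L N) cs A) ≤ (cs.map fun c => c.2 / c.1).prod * volume.real A ∧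
      (cs.map fun c => c.2 / c.1).prod * volume.real A - ε * N ≤
        volume.real (DomL q (L N) cs A) := by
  induction cs with
  | nil =>
    intro ε hε
    filter_upwards [eventually_gt_atTop 0] with N hN A hAN hA
    rw [DomL_nil _ N hAN]
    simp only [List.map_nil, List.prod_nil, one_mul]
    exact ⟨hA, hAN, le_rfl, by nlinarith⟩
  | cons c cs ih =>
    intro ε hε
    obtain ⟨hc2, hc0, hc1⟩ := hcs c (List.mem_cons_self)
    have hr0 : 0 ≤ c.2 / c.1 := div_nonneg hc0.le (by linarith)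
    have hr1 : c.2 / c.1 ≤ 1 := by rw [div_le_one (by linarith)]; linarith
    filter_upwards [ih (fun d hd => hcs d (List.mem_cons_of_mem _ hd)) (ε / 2) (by positivity),
      hR.one_step hc0 hc1 hc2 (ε := ε / 2) (by positivity), hR.lpos,
      eventually_gt_atTop 0] with N h1 h2 hL hN A hAN hA
    obtain ⟨h3, h4, h5, h6⟩ := h1 A hAN hA
    obtain ⟨h7, h8⟩ := h2 _ h4 h3
    rw [DomL_cons]
    refine ⟨hR.pts.meas_Dom (by positivity) (div_pos (by linarith) hL) h3, Dom_subset h4, ?_, ?_⟩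
    · rw [List.map_cons, List.prod_cons, mul_assoc]
      exact h7.trans (mul_le_mul_of_nonneg_left h5 hr0)
    · rw [List.map_cons, List.prod_cons, mul_assoc]
      refine le_trans ?_ h8
      have h9 := mul_le_mul_of_nonneg_left h6 hr0
      have h10 : c.2 / c.1 * (ε / 2 * N) ≤ 1 * (ε / 2 * N) :=
        mul_le_mul_of_nonneg_right hr1 (by positivity)
      nlinarith

end Pool.Agent.TH110.Zig
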