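import Pool.Agent.TH110.Zig.Ret

/-!
# The margins at the points of the sequence
-/

set_option autoImplicit false

open MeasureTheory Set Filter Topology

namespace Pool.Agent.TH110.Zig

variable {q : ℕ → ℝ} {L : ℝ → ℝ}

/-- the margin between the count from `q i` on (the point `q i` included) and the line of slope `σ`,
up to `R` -/
noncomputable def marg (q : ℕ → ℝ) (σ R : ℝ) (i : ℕ) : ℝ :=
  sInf ((fun t => cr q t - i - σ * (t - q i)) '' Icc (q i) R)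

theorem marg_bdd (q : ℕ → ℝ) {σ : ℝ} (hσ : 0 ≤ σ) (R : ℝ) (i : ℕ) :
    BddBelow ((fun t => cr q t - i - σ * (t - q i)) '' Icc (q i) R) := by
  refine ⟨- i - σ * (R - q i), ?_⟩
  rintro _ ⟨t, ht, rfl⟩
  have h1 : σ * (t - q i) ≤ σ * (R - q i) := mul_le_mul_of_nonneg_left (by linarith [ht.2]) hσ
  have h2 : 0 ≤ cr q t := Nat.cast_nonneg _
  change - (i : ℝ) - σ * (R - q i) ≤ cr q t - i - σ * (t - q i)
  linarith

theorem Pts.marg_le_one (hq : Pts q) {σ : ℝ} (hσ : 0 ≤ σ) {R : ℝ} {i : ℕ} (hi : q i ≤ R) :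
    marg q σ R i ≤ 1 := by
  refine csInf_le (marg_bdd q hσ R i) ⟨q i, ⟨le_rfl, hi⟩, ?_⟩
  change cr q (q i) - i - σ * (q i - q i) = 1
  rw [cr, hq.cnt_q, sub_self, mul_zero]
  push_cast; ring

/-- the heights at the point `q i` from which the line of slope `σ` ends before `R` -/
def hit (q : ℕ → ℝ) (σ R : ℝ) (i : ℕ) : Set ℝ :=
  {y | y ∈ Ioc (i : ℝ) (i + 1) ∧ ∃ v ∈ Iic R, RC q σ y v}

theorem Pts.mem_hit (hq : Pts q) {σ : ℝ} (hσ : 0 < σ) {R : ℝ} {i : ℕ} {y : ℝ}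
    (h1 : (i : ℝ) < y) (h2 : y ≤ i + 1) :
    (∃ v ∈ Iic R, RC q σ y v) ↔ ∃ t ∈ Icc (q i) R, cr q t - i - σ * (t - q i) ≤ y - i := by
  constructor
  · rintro ⟨v, hv, i', m, hm, rfl⟩
    have hi : i = i' := cast_between h1 h2 hm.1 hm.2.1
    subst hi
    have h3 := hm.quot_nonneg hσ
    refine ⟨_, ⟨by linarith, hv⟩, ?_⟩
    rw [cr, hm.cnt_eq hq hσ, add_sub_cancel_left]
    have : σ * ((m - y) / σ) = m - y := by field_simp
    rw [this]; linarith
  · rintro ⟨t, ht, h3⟩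
    unfold cr at h3
    obtain ⟨m, hm, hmt⟩ := hq.exists_PC hσ h1 h2 ht.1 (by linarith)
    exact ⟨_, hmt.trans ht.2, i, m, hm, rfl⟩

theorem Pts.vol_hit (hq : Pts q) {σ : ℝ} (hσ : 0 < σ) {R : ℝ} {i : ℕ} (hi : q i ≤ R) :
    volume.real (hit q σ R i) = 1 - max 0 (marg q σ R i) := by
  have hne : ((fun t => cr q t - i - σ * (t - q i)) '' Icc (q i) R).Nonempty :=
    ⟨_, q i, ⟨le_rfl, hi⟩, rfl⟩
  have hbd := marg_bdd q hσ.le R i
  have h1 := hq.marg_le_one hσ.le hi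
  set m := marg q σ R i with hm
  have hm1 : max 0 m ≤ 1 := max_le zero_le_one h1
  have hsub1 : Ioc ((i : ℝ) + max 0 m) (i + 1) ⊆ hit q σ R i := by
    intro y hy
    have hy1 : (i : ℝ) < y := by
      have := le_max_left 0 m
      linarith [hy.1]
    refine ⟨⟨hy1, hy.2⟩, (hq.mem_hit hσ hy1 hy.2).mpr ?_⟩
    have h2 : m < y - i := by
      have := le_max_right 0 m
      linarith [hy.1]
    obtain ⟨_, ⟨t, ht, rfl⟩, h3⟩ := exists_lt_of_csInf_lt hne h2
    exact ⟨t, ht, h3.le⟩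
  have hsub2 : hit q σ R i ⊆ Icc ((i : ℝ) + max 0 m) (i + 1) := by
    rintro y ⟨⟨h2, h3⟩, h4⟩
    obtain ⟨t, ht, h5⟩ := (hq.mem_hit hσ h2 h3).mp h4
    refine ⟨?_, h3⟩
    have h6 : m ≤ cr q t - i - σ * (t - q i) := csInf_le hbd ⟨t, ht, rfl⟩
    have h7 : max 0 m ≤ y - i := max_le (by linarith) (by linarith)
    linarith
  apply le_antisymm
  · refine (measureReal_mono hsub2 measure_Icc_lt_top.ne).trans ?_
    rw [Real.volume_real_Icc_of_le (by linarith)]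
    linarith
  · have hfin : volume (hit q σ R i) ≠ ⊤ :=
      ((measure_mono hsub2).trans_lt measure_Icc_lt_top).ne
    refine le_trans ?_ (measureReal_mono hsub1 hfin)
    rw [Real.volume_real_Ioc_of_le (by linarith)]
    linarith

/-- the end points before `R` of the lines of slope `σ` that start at the points `q i`, `i < n` -/
def Ends (q : ℕ → ℝ) (σ R : ℝ) (n : ℕ) : Set ℝ :=
  {v | v ∈ Iic R ∧ ∃ y ∈ Ioc (0 : ℝ) n, RC q σ y v}

theorem Pts.ends_subset (hq : Pts q) (hq0 : 0 < q 0) {σ : ℝ} (hσ : 0 < σ) (R : ℝ) (n : ℕ) :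
    Ends q σ R n ⊆ Icc 0 R := by
  rintro v ⟨h1, y, -, h2⟩
  obtain ⟨i, -, -, h3⟩ := h2.start_le hσ
  have : q 0 ≤ q i := hq.mono.monotone (Nat.zero_le i)
  exact ⟨by linarith, h1⟩

/-- **The sum of the positive parts of the margins.** -/
theorem Pts.sum_marg (hq : Pts q) {σ : ℝ} (hσ : 0 < σ) {R : ℝ} {n : ℕ}
    (hR : ∀ i < n, q i ≤ R) :
    ∑ i ∈ Finset.range n, max 0 (marg q σ R i) = n - σ * volume.real (Ends q σ R n) := by
  have h1 := hq.vol_C hσ (U := Ioc (0 : ℝ) n) (T := Iic R) measurableSet_Ioc measurableSet_Iic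
  have e : {y | y ∈ Ioc (0 : ℝ) n ∧ ∃ v ∈ Iic R, RC q σ y v} =
      ⋃ i ∈ Finset.range n, hit q σ R i := by
    ext y
    simp only [mem_ofPred_eq, hit, mem_iUnion, Finset.mem_range, exists_prop]
    constructor
    · rintro ⟨hy, v, hv, h⟩
      obtain ⟨i, h2, h3, -⟩ := h.start_le hσ
      refine ⟨i, ?_, ⟨h2, h3⟩, v, hv, h⟩
      have : (i : ℝ) < n := h2.trans_le hy.2
      exact_mod_cast this
    · rintro ⟨i, hi, ⟨h2, h3⟩, v, hv, h⟩
      refine ⟨⟨?_, ?_⟩, v, hv, h⟩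
      · have : (0 : ℝ) ≤ i := Nat.cast_nonneg i
        linarith
      · have : (i : ℝ) + 1 ≤ n := by exact_mod_cast hi
        linarith
  have h2 : volume.real {y | y ∈ Ioc (0 : ℝ) n ∧ ∃ v ∈ Iic R, RC q σ y v} =
      ∑ i ∈ Finset.range n, (1 - max 0 (marg q σ R i)) := by
    have hfin : ∀ i ∈ Finset.range n, volume (hit q σ R i) ≠ ⊤ := by
      intro i _
      have hs : hit q σ R i ⊆ Ioc (i : ℝ) (i + 1) := fun y hy => hy.1
      exact ((measure_mono hs).trans_lt measure_Ioc_lt_top).ne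
    have hdis : (↑(Finset.range n) : Set ℕ).PairwiseDisjoint (hit q σ R) := by
      intro i _ j _ hij
      rw [Function.onFun, Set.disjoint_left]
      rintro y ⟨⟨h3, h4⟩, -⟩ ⟨⟨h5, h6⟩, -⟩
      exact hij (cast_between h3 h4 h5 h6)
    have hms : ∀ i ∈ Finset.range n, MeasurableSet (hit q σ R i) := by
      intro i _
      exact meas_dom_C q σ measurableSet_Ioc measurableSet_Iic
    rw [e, measureReal_biUnion_finset hdis hms hfin]
    refine Finset.sum_congr rfl fun i hi => ?_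
    exact hq.vol_hit hσ (hR i (Finset.mem_range.mp hi))
  have h3 : volume.real {y | y ∈ Ioc (0 : ℝ) n ∧ ∃ v ∈ Iic R, RC q σ y v} =
      σ * volume.real (Ends q σ R n) := by
    unfold Measure.real
    rw [h1, ENNReal.toReal_mul, ENNReal.toReal_ofReal hσ.le]
    rfl
  rw [h3, Finset.sum_sub_distrib, Finset.sum_const, Finset.card_range, nsmul_eq_mul, mul_one] at h2
  linarith

/-- All points `v ∈ [M, R]` with `σ v < cnt v ≤ n` are end points. -/
theorem Pts.ends_ge (hq : Pts q) (hq0 : 0 < q 0) {σ : ℝ} (hσ : 0 < σ) {R M N : ℝ} {n : ℕ}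
    (hM : q 0 ≤ M) (hMN : M ≤ N) (hNR : N ≤ R)
    (h1 : ∀ v, M ≤ v → v < N → σ * v < cr q v) (h2 : ∀ v < N, cnt q v ≤ n) :
    N - M ≤ volume.real (Ends q σ R n) := by
  have hsub : Ico M N ⊆ Ends q σ R n := by
    intro v hv
    refine ⟨hv.2.le.trans hNR, ?_⟩
    obtain ⟨y, hy0, hy⟩ := hq.range_C hq0 hσ (hM.trans hv.1) (h1 v hv.1 hv.2)
    refine ⟨y, ⟨hy0, ?_⟩, hy⟩
    obtain ⟨i, m, hm, rfl⟩ := hy
    have h3 := h2 _ hv.2
    rw [hm.cnt_eq hq hσ] at h3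
    have h4 : i + 1 ≤ n := (Nat.succ_le_of_lt hm.2.2.1).trans h3
    have h5 : (i : ℝ) + 1 ≤ n := by exact_mod_cast h4
    exact hm.2.1.trans h5
  have := measureReal_mono hsub (real_ne_top (hq.ends_subset hq0 hσ R n))
  rw [Real.volume_real_Ico_of_le hMN] at this
  exact this

/-- If `cnt w - σ w ≤ B` at all points `w = q i`, `i < n`, then all end points `v` have
`cnt v - σ v ≤ B`. -/
theorem Pts.ends_le (hq : Pts q) {σ : ℝ} (hσ : 0 < σ) {R B : ℝ} {n : ℕ}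
    (h1 : ∀ i < n, ((i : ℝ) + 1) - σ * q i ≤ B) {v : ℝ} (hv : v ∈ Ends q σ R n) :
    cr q v - σ * v ≤ B := by
  obtain ⟨-, y, hy, i, m, hm, rfl⟩ := hv
  have h2 : i < n := by
    have : (i : ℝ) < n := hm.1.trans_le hy.2
    exact_mod_cast this
  have h3 := h1 i h2
  rw [cr, hm.cnt_eq hq hσ]
  have : σ * (q i + (m - y) / σ) = σ * q i + (m - y) := by field_simp
  rw [this]
  linarith [hm.2.1]

end Pool.Agent.TH110.Zig
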