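import Pool.Agent.TH110.Zig.Det

/-!
# The two maps scale the measure by `b` and by `1 / a`
-/

set_option autoImplicit false

open MeasureTheory Set Filter

namespace Pool.Agent.TH110.Zig

variable {q : ℕ → ℝ}

theorem affine_image (c d : ℝ) (hc : c ≠ 0) (S : Set ℝ) :
    (fun v => c * v + d) '' S = (fun y => c⁻¹ * y) ⁻¹' ((fun z => z + -(c⁻¹ * d)) ⁻¹' S) := by
  ext y
  simp only [mem_image, mem_preimage]
  constructor
  · rintro ⟨v, hv, rfl⟩
    have : c⁻¹ * (c * v + d) + -(c⁻¹ * d) = v := by field_simp; ring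
    rw [this]; exact hv
  · intro h
    refine ⟨_, h, ?_⟩
    field_simp
    ring

theorem vol_affine (c d : ℝ) (hc : c ≠ 0) (S : Set ℝ) :
    volume ((fun v => c * v + d) '' S) = ENNReal.ofReal |c| * volume S := by
  rw [affine_image c d hc, Real.volume_preimage_mul_left (inv_ne_zero hc),
    measure_preimage_add_right, inv_inv]

theorem meas_affine (c d : ℝ) (hc : c ≠ 0) (S : Set ℝ) (hS : MeasurableSet S) :
    MeasurableSet ((fun v => c * v + d) '' S) := by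
  rw [affine_image c d hc]
  exact (measurable_const_mul _) ((measurable_add_const _) hS)

theorem vol_pieces {ι : Type*} [Countable ι] (S : ι → Set ℝ) (hS : ∀ k, MeasurableSet (S k))
    (c : ℝ) (hc : c ≠ 0) (d : ι → ℝ) (h1 : Pairwise (Function.onFun Disjoint S))
    (h2 : Pairwise (Function.onFun Disjoint fun k => (fun v => c * v + d k) '' S k)) :
    volume (⋃ k, (fun v => c * v + d k) '' S k) = ENNReal.ofReal |c| * volume (⋃ k, S k) := by
  rw [measure_iUnion h2 (fun k => meas_affine c (d k) hc (S k) (hS k)), measure_iUnion h1 hS,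
    ← ENNReal.tsum_mul_left]
  exact tsum_congr fun k => vol_affine c (d k) hc (S k)

theorem Pts.measurable_cnt (hq : Pts q) : Measurable (cnt q) := hq.cnt_mono.measurable

theorem Pts.meas_PB (hq : Pts q) (b : ℝ) (j i : ℕ) : MeasurableSet {v | PB q b j i v} := by
  have e : {v | PB q b j i v} = {v | cnt q v = j} ∩ ({_v : ℝ | j ≤ i} ∩
      ({v : ℝ | (j : ℝ) + b * (q i - v) ≤ i + 1} ∩
        ⋂ l : ℕ, {v : ℝ | j ≤ l → l < i → (l : ℝ) + 1 < j + b * (q l - v)})) := by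
    ext v
    simp only [PB, mem_ofPred_eq, mem_inter_iff, mem_iInter]
  rw [e]
  refine (hq.measurable_cnt (measurableSet_singleton j)).inter ((MeasurableSet.const _).inter
    ((measurableSet_le (by fun_prop) (by fun_prop)).inter (MeasurableSet.iInter fun l => ?_)))
  by_cases hl : j ≤ l ∧ l < i
  · have : {v : ℝ | j ≤ l → l < i → (l : ℝ) + 1 < j + b * (q l - v)} =
        {v : ℝ | (l : ℝ) + 1 < j + b * (q l - v)} := by
      ext v; simp [hl.1, hl.2]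
    rw [this]
    exact measurableSet_lt (by fun_prop) (by fun_prop)
  · have : {v : ℝ | j ≤ l → l < i → (l : ℝ) + 1 < j + b * (q l - v)} = univ := by
      ext v
      simp only [mem_ofPred_eq, mem_univ, iff_true]
      intro h1 h2; exact absurd ⟨h1, h2⟩ hl
    rw [this]; exact MeasurableSet.univ

theorem meas_PC (q : ℕ → ℝ) (a : ℝ) (i m : ℕ) : MeasurableSet {y | PC q a i m y} := by
  have e : {y | PC q a i m y} = {y : ℝ | (i : ℝ) < y} ∩ ({y : ℝ | y ≤ i + 1} ∩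
      ({_y : ℝ | i < m} ∩ ((⋂ l : ℕ, {y : ℝ | i < l → l < m → y + a * (q l - q i) ≤ l}) ∩
        {y : ℝ | (m : ℝ) < y + a * (q m - q i)}))) := by
    ext v
    simp only [PC, mem_ofPred_eq, mem_inter_iff, mem_iInter]
  rw [e]
  refine (measurableSet_lt (by fun_prop) (by fun_prop)).inter
    ((measurableSet_le (by fun_prop) (by fun_prop)).inter ((MeasurableSet.const _).inter
      ((MeasurableSet.iInter fun l => ?_).inter (measurableSet_lt (by fun_prop) (by fun_prop)))))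
  by_cases hl : i < l ∧ l < m
  · have : {y : ℝ | i < l → l < m → y + a * (q l - q i) ≤ l} =
        {y : ℝ | y + a * (q l - q i) ≤ l} := by
      ext v; simp [hl.1, hl.2]
    rw [this]
    exact measurableSet_le (by fun_prop) (by fun_prop)
  · have : {y : ℝ | i < l → l < m → y + a * (q l - q i) ≤ l} = univ := by
      ext v
      simp only [mem_ofPred_eq, mem_univ, iff_true]
      intro h1 h2; exact absurd ⟨h1, h2⟩ hl
    rw [this]; exact MeasurableSet.univ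

/-- the pieces of the first map -/
def SB (q : ℕ → ℝ) (b : ℝ) (U T : Set ℝ) (k : ℕ × ℕ) : Set ℝ :=
  {v | v ∈ U ∧ PB q b k.1 k.2 v ∧ (k.1 : ℝ) + b * (q k.2 - v) ∈ T}

/-- the pieces of the second map -/
def SC (q : ℕ → ℝ) (a : ℝ) (U T : Set ℝ) (k : ℕ × ℕ) : Set ℝ :=
  {y | y ∈ U ∧ PC q a k.1 k.2 y ∧ q k.1 + (k.2 - y) / a ∈ T}

theorem SB_iUnion (q : ℕ → ℝ) (b : ℝ) (U T : Set ℝ) :
    ⋃ k, SB q b U T k = {v | v ∈ U ∧ ∃ y ∈ T, RB q b v y} := by
  ext v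
  simp only [SB, RB, mem_iUnion, mem_ofPred_eq, Prod.exists]
  constructor
  · rintro ⟨j, i, h1, h2, h3⟩
    exact ⟨h1, _, h3, j, i, h2, rfl⟩
  · rintro ⟨h1, y, h2, j, i, h3, rfl⟩
    exact ⟨j, i, h1, h3, h2⟩

theorem SC_iUnion (q : ℕ → ℝ) (a : ℝ) (U T : Set ℝ) :
    ⋃ k, SC q a U T k = {y | y ∈ U ∧ ∃ v ∈ T, RC q a y v} := by
  ext v
  simp only [SC, RC, mem_iUnion, mem_ofPred_eq, Prod.exists]
  constructor
  · rintro ⟨j, i, h1, h2, h3⟩
    exact ⟨h1, _, h3, j, i, h2, rfl⟩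
  · rintro ⟨h1, y, h2, j, i, h3, rfl⟩
    exact ⟨j, i, h1, h3, h2⟩

theorem SB_image (q : ℕ → ℝ) (b : ℝ) (U T : Set ℝ) :
    ⋃ k : ℕ × ℕ, (fun v => (-b) * v + ((k.1 : ℝ) + b * q k.2)) '' SB q b U T k =
      {y | y ∈ T ∧ ∃ v ∈ U, RB q b v y} := by
  have e : ∀ (k : ℕ × ℕ) (v : ℝ), (-b) * v + ((k.1 : ℝ) + b * q k.2) = k.1 + b * (q k.2 - v) := by
    intro k v; ring
  ext y
  simp only [SB, RB, mem_iUnion, mem_image, mem_ofPred_eq, Prod.exists, e]
  constructor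
  · rintro ⟨j, i, v, ⟨h1, h2, h3⟩, rfl⟩
    exact ⟨h3, v, h1, j, i, h2, rfl⟩
  · rintro ⟨h1, v, h2, j, i, h3, rfl⟩
    exact ⟨j, i, v, ⟨h2, h3, h1⟩, rfl⟩

theorem SC_image (q : ℕ → ℝ) (a : ℝ) (U T : Set ℝ) :
    ⋃ k : ℕ × ℕ, (fun y => (-a⁻¹) * y + (q k.1 + k.2 / a)) '' SC q a U T k =
      {v | v ∈ T ∧ ∃ y ∈ U, RC q a y v} := by
  have e : ∀ (k : ℕ × ℕ) (y : ℝ), (-a⁻¹) * y + (q k.1 + k.2 / a) = q k.1 + (k.2 - y) / a := by
    intro k v
    rw [sub_div, div_eq_inv_mul v a]; ring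
  ext v
  simp only [SC, RC, mem_iUnion, mem_image, mem_ofPred_eq, Prod.exists, e]
  constructor
  · rintro ⟨j, i, y, ⟨h1, h2, h3⟩, rfl⟩
    exact ⟨h3, y, h1, j, i, h2, rfl⟩
  · rintro ⟨h1, y, h2, j, i, h3, rfl⟩
    exact ⟨j, i, y, ⟨h2, h3, h1⟩, rfl⟩

theorem Pts.meas_SB (hq : Pts q) (b : ℝ) {U T : Set ℝ} (hU : MeasurableSet U)
    (hT : MeasurableSet T) (k : ℕ × ℕ) : MeasurableSet (SB q b U T k) := by
  refine hU.inter ((hq.meas_PB b k.1 k.2).inter ?_)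
  have : Measurable fun v : ℝ => (k.1 : ℝ) + b * (q k.2 - v) := by fun_prop
  exact this hT

theorem meas_SC (q : ℕ → ℝ) (a : ℝ) {U T : Set ℝ} (hU : MeasurableSet U)
    (hT : MeasurableSet T) (k : ℕ × ℕ) : MeasurableSet (SC q a U T k) := by
  refine hU.inter ((meas_PC q a k.1 k.2).inter ?_)
  have : Measurable fun y : ℝ => q k.1 + (k.2 - y) / a := by fun_prop
  exact this hT

theorem Pts.meas_dom_B (hq : Pts q) (b : ℝ) {U T : Set ℝ} (hU : MeasurableSet U)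
    (hT : MeasurableSet T) : MeasurableSet {v | v ∈ U ∧ ∃ y ∈ T, RB q b v y} := by
  rw [← SB_iUnion]
  exact MeasurableSet.iUnion fun k => hq.meas_SB b hU hT k

theorem meas_dom_C (q : ℕ → ℝ) (a : ℝ) {U T : Set ℝ} (hU : MeasurableSet U)
    (hT : MeasurableSet T) : MeasurableSet {y | y ∈ U ∧ ∃ v ∈ T, RC q a y v} := by
  rw [← SC_iUnion]
  exact MeasurableSet.iUnion fun k => meas_SC q a hU hT k

theorem Pts.meas_ran_B (hq : Pts q) {b : ℝ} (hb : 0 < b) {U T : Set ℝ} (hU : MeasurableSet U)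
    (hT : MeasurableSet T) : MeasurableSet {y | y ∈ T ∧ ∃ v ∈ U, RB q b v y} := by
  rw [← SB_image]
  exact MeasurableSet.iUnion fun k => meas_affine _ _ (by simpa using hb.ne') _
    (hq.meas_SB b hU hT k)

theorem meas_ran_C (q : ℕ → ℝ) {a : ℝ} (ha : 0 < a) {U T : Set ℝ} (hU : MeasurableSet U)
    (hT : MeasurableSet T) : MeasurableSet {v | v ∈ T ∧ ∃ y ∈ U, RC q a y v} := by
  rw [← SC_image]
  exact MeasurableSet.iUnion fun k => meas_affine _ _ (by simpa using ha.ne') _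
    (meas_SC q a hU hT k)

/-- **The first map scales the measure by `b`.** -/
theorem Pts.vol_B (hq : Pts q) {b : ℝ} (hb : 0 < b) {U T : Set ℝ} (hU : MeasurableSet U)
    (hT : MeasurableSet T) :
    volume {y | y ∈ T ∧ ∃ v ∈ U, RB q b v y} =
      ENNReal.ofReal b * volume {v | v ∈ U ∧ ∃ y ∈ T, RB q b v y} := by
  rw [← SB_image, ← SB_iUnion]
  have hc : -b ≠ 0 := by simpa using hb.ne'
  rw [vol_pieces (SB q b U T) (fun k => hq.meas_SB b hU hT k) (-b) hc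
    (fun k => (k.1 : ℝ) + b * q k.2), abs_neg, abs_of_pos hb]
  · rintro ⟨j, i⟩ ⟨j', i'⟩ hne
    rw [Function.onFun, Set.disjoint_left]
    rintro v ⟨-, h1, -⟩ ⟨-, h2, -⟩
    obtain ⟨e1, e2⟩ := h1.unique h2
    exact hne (Prod.ext e1 e2)
  · rintro ⟨j, i⟩ ⟨j', i'⟩ hne
    rw [Function.onFun, Set.disjoint_left]
    rintro y ⟨v, ⟨-, h1, -⟩, rfl⟩ ⟨v', ⟨-, h2, -⟩, hy⟩
    have hy' : (j : ℝ) + b * (q i - v) = j' + b * (q i' - v') := by
      simp only at hy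
      linarith
    obtain ⟨e1, e2, -⟩ := h1.inj hq hb h2 hy'
    exact hne (Prod.ext e1 e2)

/-- **The second map scales the measure by `1 / a`.** -/
theorem Pts.vol_C (hq : Pts q) {a : ℝ} (ha : 0 < a) {U T : Set ℝ} (hU : MeasurableSet U)
    (hT : MeasurableSet T) :
    volume {y | y ∈ U ∧ ∃ v ∈ T, RC q a y v} =
      ENNReal.ofReal a * volume {v | v ∈ T ∧ ∃ y ∈ U, RC q a y v} := by
  rw [← SC_image, ← SC_iUnion]
  have hc : -a⁻¹ ≠ 0 := by simpa using ha.ne'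
  rw [vol_pieces (SC q a U T) (fun k => meas_SC q a hU hT k) (-a⁻¹) hc
    (fun k => q k.1 + k.2 / a), abs_neg, abs_of_pos (inv_pos.mpr ha), ← mul_assoc,
    ← ENNReal.ofReal_mul ha.le, mul_inv_cancel₀ ha.ne', ENNReal.ofReal_one, one_mul]
  · rintro ⟨j, i⟩ ⟨j', i'⟩ hne
    rw [Function.onFun, Set.disjoint_left]
    rintro v ⟨-, h1, -⟩ ⟨-, h2, -⟩
    obtain ⟨e1, e2⟩ := h1.unique h2
    exact hne (Prod.ext e1 e2)
  · rintro ⟨i, m⟩ ⟨i', m'⟩ hne
    rw [Function.onFun, Set.disjoint_left]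
    rintro v ⟨y, ⟨-, h1, -⟩, rfl⟩ ⟨y', ⟨-, h2, -⟩, hy⟩
    have hy' : q i + (m - y) / a = q i' + (m' - y') / a := by
      simp only at hy
      rw [sub_div, sub_div, div_eq_inv_mul y a, div_eq_inv_mul y' a]
      linarith
    obtain ⟨e1, e2, -⟩ := h1.inj hq ha h2 hy'
    exact hne (Prod.ext e1 e2)

end Pool.Agent.TH110.Zig
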