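import Pool.Agent.TH110.Zig.Law

/-!
# Repeated fluctuations

Deterministic bound for the measure of the points `x` after which the count is `k + 1` times above
the line of slope `b` from `x` and in between `k` times below the line of slope `a` from `x`.
-/

set_option autoImplicit false

open MeasureTheory Set Filter Topology

namespace Pool.Agent.TH110.Zig

variable {q : ℕ → ℝ} {L : ℝ → ℝ}

theorem Pts.exists_PB (hq : Pts q) {b : ℝ} (hb : 0 < b) {v t : ℝ} (h1 : v < t)
    (h2 : b * (t - v) ≤ (cnt q t : ℝ) - cnt q v) : ∃ i, PB q b (cnt q v) i v ∧ q i ≤ t := by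
  classical
  have h3 : 0 < b * (t - v) := mul_pos hb (by linarith)
  have h4 : cnt q v < cnt q t := by
    have : (cnt q v : ℝ) < cnt q t := by linarith
    exact_mod_cast this
  have h6 : q (cnt q t - 1) ≤ t := by rw [← hq.lt_cnt_iff]; omega
  have h7 : ((cnt q t - 1 : ℕ) : ℝ) + 1 = cnt q t := by
    rw [Nat.cast_sub (by omega)]; simp
  have hex : ∃ i, cnt q v ≤ i ∧ (cnt q v : ℝ) + b * (q i - v) ≤ i + 1 := by
    refine ⟨cnt q t - 1, by omega, ?_⟩
    rw [h7]
    have : b * (q (cnt q t - 1) - v) ≤ b * (t - v) := mul_le_mul_of_nonneg_left (by linarith) hb.le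
    linarith
  have h8 := Nat.find_spec hex
  refine ⟨Nat.find hex, ⟨rfl, h8.1, h8.2, ?_⟩, ?_⟩
  · intro l hl1 hl2
    have h9 := Nat.find_min hex hl2
    by_contra h10
    exact h9 ⟨hl1, not_lt.mp h10⟩
  · have h9 : Nat.find hex ≤ cnt q t - 1 := by
      apply Nat.find_min'
      refine ⟨by omega, ?_⟩
      rw [h7]
      have : b * (q (cnt q t - 1) - v) ≤ b * (t - v) :=
        mul_le_mul_of_nonneg_left (by linarith) hb.le
      linarith
    exact (hq.mono.monotone h9).trans h6

theorem Pts.exists_PC (hq : Pts q) {a : ℝ} (ha : 0 < a) {i : ℕ} {y t : ℝ} (h1 : (i : ℝ) < y)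
    (h2 : y ≤ i + 1) (h3 : q i ≤ t) (h4 : (cnt q t : ℝ) ≤ y + a * (t - q i)) :
    ∃ m, PC q a i m y ∧ q i + (m - y) / a ≤ t := by
  classical
  have h5 : i < cnt q t := by rw [hq.lt_cnt_iff]; exact h3
  have h6 := hq.lt_cnt t
  have hex : ∃ m : ℕ, i < m ∧ (m : ℝ) < y + a * (q m - q i) := by
    refine ⟨cnt q t, h5, ?_⟩
    have : a * (t - q i) < a * (q (cnt q t) - q i) := mul_lt_mul_of_pos_left (by linarith) ha
    linarith
  have h8 := Nat.find_spec hex
  refine ⟨Nat.find hex, ⟨h1, h2, h8.1, ?_, h8.2⟩, ?_⟩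
  · intro l hl1 hl2
    have h9 := Nat.find_min hex hl2
    by_contra h10
    exact h9 ⟨hl1, not_le.mp h10⟩
  · have h9 : Nat.find hex ≤ cnt q t := by
      apply Nat.find_min'
      refine ⟨h5, ?_⟩
      have : a * (t - q i) < a * (q (cnt q t) - q i) := mul_lt_mul_of_pos_left (by linarith) ha
      linarith
    have h10 : ((Nat.find hex : ℕ) : ℝ) ≤ cnt q t := by exact_mod_cast h9
    have h11 : ((Nat.find hex : ℕ) - y) / a ≤ t - q i := by
      rw [div_le_iff₀ ha]; linarith
    linarith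

/-- If the count is above the line of slope `b` at `t₀` and below the line of slope `a` at `t₁ ≥ t₀`,
then there is a zigzag that ends before `t₁`, and its end point `u` is lower than `x` for the slope
`b` and higher than `x` for the slope `a`. -/
theorem Pts.exists_zigzag (hq : Pts q) {a b : ℝ} (ha : 0 < a) (hab : a ≤ b) {x t₀ t₁ : ℝ}
    (h0 : x < t₀) (h01 : t₀ ≤ t₁) (h1 : b * (t₀ - x) ≤ cr q t₀ - cr q x)
    (h2 : cr q t₁ - cr q x ≤ a * (t₁ - x)) :
    ∃ u, Zigzag (cr q) a b x u ∧ u ≤ t₁ ∧ cr q u - b * u ≤ cr q x - b * x ∧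
      cr q x - a * x ≤ cr q u - a * u := by
  have hb : 0 < b := by linarith
  obtain ⟨i, hP, hit⟩ := hq.exists_PB hb h0 h1
  have hxi := hP.lt hq
  set y : ℝ := cnt q x + b * (q i - x) with hy
  have h3 : (cnt q t₁ : ℝ) ≤ y + a * (t₁ - q i) := by
    unfold cr at h2
    have : a * (q i - x) ≤ b * (q i - x) := mul_le_mul_of_nonneg_right hab (by linarith)
    have e : a * (t₁ - x) = a * (q i - x) + a * (t₁ - q i) := by ring
    linarith
  obtain ⟨m, hm, hmt⟩ := hq.exists_PC ha (hP.y_gt hq hb) hP.2.2.1 (hit.trans h01) h3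
  refine ⟨q i + (m - y) / a, (hq.zigzag_iff ha hb _ _).mpr ⟨y, ⟨_, i, hP, rfl⟩, i, m, hm, rfl⟩,
    hmt, ?_, ?_⟩
  · have h4 := hm.cnt_eq hq ha
    have h5 := hm.quot_nonneg ha
    unfold cr
    rw [h4]
    have e1 : a * ((m - y) / a) = m - y := by field_simp
    have h6 : a * ((m - y) / a) ≤ b * ((m - y) / a) := mul_le_mul_of_nonneg_right hab h5
    have e2 : b * (q i + (m - y) / a) = b * q i + b * ((m - y) / a) := by ring
    rw [e2]
    have e3 : b * (q i - x) = b * q i - b * x := by ring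
    linarith
  · have h4 := hm.cnt_eq hq ha
    unfold cr
    rw [h4]
    have e1 : a * (q i + (m - y) / a) = a * q i + (m - y) := by field_simp
    rw [e1]
    have h6 : a * (q i - x) ≤ b * (q i - x) := mul_le_mul_of_nonneg_right hab (by linarith)
    have e3 : a * (q i - x) = a * q i - a * x := by ring
    linarith

/-- `k + 1` times above the line of slope `b` from `x` and in between `k` times below the line of slope
`a` from `x`, before `W` -/
def OscF (F : ℝ → ℝ) (a b W : ℝ) (k : ℕ) (x : ℝ) : Prop :=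
  ∃ t : ℕ → ℝ, x < t 0 ∧ (∀ i < 2 * k, t i < t (i + 1)) ∧ t (2 * k) ≤ W ∧
    (∀ i ≤ k, b * (t (2 * i) - x) ≤ F (t (2 * i)) - F x) ∧
    ∀ i < k, F (t (2 * i + 1)) - F x ≤ a * (t (2 * i + 1) - x)

/-- the points after `Z` from which `k` zigzags lead to a point with an ascent before `W` -/
def DK (q : ℕ → ℝ) (a b Z W : ℝ) : ℕ → Set ℝ
  | 0 => {v | v ∈ Ioi Z ∧ ∃ y ∈ Ioc (cr q Z) (cr q W), RB q b v y}
  | k + 1 => Ioi Z ∩ Dom q a b (DK q a b Z W k)

theorem Pts.oscF_mem (hq : Pts q) {a b Z W : ℝ} (ha : 0 < a) (hab : a ≤ b) (hZ : 0 ≤ Z) (k : ℕ) :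
    ∀ x, Z < x → OscF (cr q) a b W k x → x ∈ DK q a b Z W k := by
  have hb : 0 < b := by linarith
  induction k with
  | zero =>
    rintro x hx ⟨t, h1, -, h2, h3, -⟩
    have h4 := h3 0 le_rfl
    rw [mul_zero] at h4 h2
    obtain ⟨i, hP, hit⟩ := hq.exists_PB hb h1 h4
    refine ⟨hx, _, ⟨?_, ?_⟩, _, i, hP, rfl⟩
    · refine lt_of_le_of_lt ?_ (hP.y_gt hq hb)
      unfold cr
      exact_mod_cast (hq.cnt_mono hx.le).trans hP.2.1
    · refine hP.2.2.1.trans ?_
      unfold cr
      have h5 : i < cnt q W := by rw [hq.lt_cnt_iff]; exact hit.trans h2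
      exact_mod_cast h5
  | succ k ih =>
    rintro x hx ⟨t, h1, h2, h3, h4, h5⟩
    have h01 : t 0 < t 1 := h2 0 (by omega)
    have h12 : t 1 < t 2 := h2 1 (by omega)
    have h6 := h4 0 (by omega)
    have h7 := h5 0 (by omega)
    simp only [mul_zero, zero_add] at h6 h7
    obtain ⟨u, hu, hut, hG, hK⟩ := hq.exists_zigzag ha hab h1 h01.le h6 h7
    have hxu := hu.lt
    refine ⟨hx, hZ.trans hx.le, u, ?_, hu⟩
    apply ih u (hx.trans hxu)
    refine ⟨fun i => t (i + 2), hut.trans_lt h12, ?_, ?_, ?_, ?_⟩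
    · intro i hi
      exact h2 (i + 2) (by omega)
    · have e : 2 * (k + 1) = 2 * k + 2 := by ring
      rw [e] at h3
      exact h3
    · intro i hi
      have h8 := h4 (i + 1) (by omega)
      have e : 2 * (i + 1) = 2 * i + 2 := by ring
      rw [e] at h8
      change b * (t (2 * i + 2) - u) ≤ cr q (t (2 * i + 2)) - cr q u
      have e1 : b * (t (2 * i + 2) - x) = b * t (2 * i + 2) - b * x := by ring
      have e2 : b * (t (2 * i + 2) - u) = b * t (2 * i + 2) - b * u := by ring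
      linarith
    · intro i hi
      have h8 := h5 (i + 1) (by omega)
      have e : 2 * (i + 1) + 1 = 2 * i + 1 + 2 := by ring
      rw [e] at h8
      change cr q (t (2 * i + 1 + 2)) - cr q u ≤ a * (t (2 * i + 1 + 2) - u)
      have e1 : a * (t (2 * i + 1 + 2) - x) = a * t (2 * i + 1 + 2) - a * x := by ring
      have e2 : a * (t (2 * i + 1 + 2) - u) = a * t (2 * i + 1 + 2) - a * u := by ring
      linarith

theorem Pts.meas_DK (hq : Pts q) {a b Z W : ℝ} (ha : 0 < a) (hb : 0 < b) (k : ℕ) :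
    MeasurableSet (DK q a b Z W k) := by
  induction k with
  | zero => exact hq.meas_dom_B b measurableSet_Ioi measurableSet_Ioc
  | succ k ih => exact measurableSet_Ioi.inter (hq.meas_Dom ha hb ih)

theorem Pts.DK_subset (hq : Pts q) {a b Z W : ℝ} (hb : 0 < b) (k : ℕ) :
    DK q a b Z W k ⊆ Ioc Z W := by
  induction k with
  | zero =>
    rintro v ⟨h1, y, h2, j, i, hP, rfl⟩
    refine ⟨h1, ?_⟩
    have h3 := hP.lt hq
    have h4 := (hP.y_gt hq hb).trans_le h2.2
    unfold cr at h4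
    have h5 : i < cnt q W := by exact_mod_cast h4
    rw [hq.lt_cnt_iff] at h5
    linarith
  | succ k ih =>
    rintro x ⟨h1, h2, u, h3, h4⟩
    exact ⟨h1, h4.lt.le.trans (ih h3).2⟩

theorem Pts.real_DK_le (hq : Pts q) {a b Z W : ℝ} (ha : 0 < a) (hb : 0 < b) (hZ : 0 ≤ Z)
    {l : ℝ} (hl : 0 < l) (k : ℕ) :
    volume.real (DK q (a / l) (b / l) Z W k) ≤
      (a / b) ^ k * volume.real (DK q (a / l) (b / l) Z W 0) := by
  have haL : 0 < a / l := by positivity
  have hbL : 0 < b / l := by positivity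
  induction k with
  | zero => simp
  | succ k ih =>
    have hsub : DK q (a / l) (b / l) Z W k ⊆ Icc 0 W := fun x hx =>
      ⟨hZ.trans (hq.DK_subset hbL k hx).1.le, (hq.DK_subset hbL k hx).2⟩
    have h1 := hq.real_Dom_le ha hb (hq.meas_DK haL hbL k) hsub hl
    have h2 : volume.real (DK q (a / l) (b / l) Z W (k + 1)) ≤
        volume.real (Dom q (a / l) (b / l) (DK q (a / l) (b / l) Z W k)) :=
      measureReal_mono (fun x hx => hx.2) (real_ne_top (Dom_subset hsub))
    refine h2.trans (h1.trans ?_)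
    rw [pow_succ', mul_assoc]
    exact mul_le_mul_of_nonneg_left ih (by positivity)

theorem Pts.real_DK_zero (hq : Pts q) {a b Z W : ℝ} (hb : 0 < b) (hZW : Z ≤ W)
    {l : ℝ} (hl : 0 < l) :
    volume.real (DK q (a / l) (b / l) Z W 0) ≤ W - Z ∧
      volume.real (DK q (a / l) (b / l) Z W 0) ≤ (cr q W - cr q Z) * l / b := by
  have hbL : 0 < b / l := by positivity
  constructor
  · refine (measureReal_mono (hq.DK_subset hbL 0) (by simp)).trans ?_
    rw [Real.volume_real_Ioc_of_le hZW]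
  · have h1 := hq.vol_B hbL (U := Ioi Z) (T := Ioc (cr q Z) (cr q W)) measurableSet_Ioi
      measurableSet_Ioc
    have h2 : volume {y | y ∈ Ioc (cr q Z) (cr q W) ∧ ∃ v ∈ Ioi Z, RB q (b / l) v y} ≤
        ENNReal.ofReal (cr q W - cr q Z) := by
      rw [← Real.volume_Ioc]
      exact measure_mono fun y hy => hy.1
    rw [h1] at h2
    have h3 := ENNReal.toReal_mono ENNReal.ofReal_ne_top h2
    have hmono : cr q Z ≤ cr q W := by
      unfold cr; exact_mod_cast hq.cnt_mono hZW
    rw [ENNReal.toReal_mul, ENNReal.toReal_ofReal hbL.le,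
      ENNReal.toReal_ofReal (by linarith)] at h3
    change b / l * volume.real (DK q (a / l) (b / l) Z W 0) ≤ cr q W - cr q Z at h3
    rw [le_div_iff₀ hb]
    rw [div_mul_eq_mul_div, div_le_iff₀ hl] at h3
    linarith

/-- **The deterministic bound.** -/
theorem Pts.real_osc_le (hq : Pts q) {a b Z W : ℝ} (ha : 0 < a) (hab : a ≤ b) (hZ : 0 ≤ Z)
    (hZW : Z ≤ W) {l : ℝ} (hl : 0 < l) (k : ℕ) :
    volume.real {x | Z < x ∧ OscF (cr q) (a / l) (b / l) W k x} ≤
      (a / b) ^ k * min (W - Z) ((cr q W - cr q Z) * l / b) := by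
  have hb : 0 < b := by linarith
  have haL : 0 < a / l := by positivity
  have hbL : 0 < b / l := by positivity
  have habL : a / l ≤ b / l := div_le_div_of_nonneg_right hab hl.le
  have hsub : {x | Z < x ∧ OscF (cr q) (a / l) (b / l) W k x} ⊆ DK q (a / l) (b / l) Z W k :=
    fun x hx => hq.oscF_mem haL habL hZ k x hx.1 hx.2
  have hfin : volume (DK q (a / l) (b / l) Z W k) ≠ ⊤ :=
    ((measure_mono (hq.DK_subset hbL k)).trans_lt measure_Ioc_lt_top).ne
  refine (measureReal_mono hsub hfin).trans ((hq.real_DK_le ha hb hZ hl k).trans ?_)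
  obtain ⟨h1, h2⟩ := hq.real_DK_zero (a := a) hb hZW hl
  exact mul_le_mul_of_nonneg_left (le_min h1 h2) (by positivity)

end Pool.Agent.TH110.Zig
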