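import Pool.Agent.TH110.Zig.Det

/-!
# The ranges of the two maps, and first passage times
-/

set_option autoImplicit false

open Set Filter

namespace Pool.Agent.TH110.Zig

variable {q : ℕ → ℝ}

theorem Pts.cnt_eq_of (hq : Pts q) {v : ℝ} {j : ℕ} (h1 : v < q j)
    (h2 : j = 0 ∨ q (j - 1) ≤ v) : cnt q v = j := by
  apply le_antisymm
  · rwa [hq.cnt_le_iff]
  · rcases h2 with h2 | h2
    · omega
    · rcases Nat.eq_zero_or_pos j with h3 | h3
      · omega
      · have := (hq.lt_cnt_iff v (j - 1)).mpr h2
        omega

/-- Every point of height `y ≤ b q i` of the vertical segment at `q i` is hit. -/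
theorem Pts.range_B (hq : Pts q) (h0 : 0 < q 0) {b : ℝ} (hb : 0 < b) {i : ℕ} {y : ℝ}
    (h1 : (i : ℝ) < y) (h2 : y ≤ i + 1) (h3 : y ≤ b * q i) : ∃ v, 0 ≤ v ∧ RB q b v y := by
  classical
  have hex : ∃ j, j ≤ i ∧ ∀ l, j ≤ l → l < i → (l : ℝ) + 1 < y - b * (q i - q l) :=
    ⟨i, le_rfl, fun l h h' => by omega⟩
  set j := Nat.find hex with hj
  obtain ⟨hji, hl⟩ := Nat.find_spec hex
  rw [← hj] at hji hl
  set v := q i - (y - j) / b with hv
  have ev : b * (q i - v) = y - j := by rw [hv]; field_simp; ring
  have hvj : v < q j := by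
    have h4 : b * (q i - q j) < b * (q i - v) := by
      rw [ev]
      rcases Nat.eq_or_lt_of_le hji with h5 | h5
      · rw [h5]; simp only [sub_self, mul_zero]; linarith
      · have := hl j le_rfl h5
        linarith
    have := lt_of_mul_lt_mul_left h4 hb.le
    linarith
  have hvj' : j = 0 ∨ q (j - 1) ≤ v := by
    rcases Nat.eq_zero_or_pos j with h5 | h5
    · left; exact h5
    right
    have h6 := Nat.find_min hex (m := j - 1) (by omega)
    push Not at h6
    obtain ⟨l, hl1, hl2, hl3⟩ := h6 (by omega)
    have hlj : l = j - 1 := by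
      by_contra hne
      have := hl l (by omega) hl2
      linarith
    subst hlj
    have h7 : ((j - 1 : ℕ) : ℝ) + 1 = j := by
      rw [Nat.cast_sub (by omega)]; simp
    rw [h7] at hl3
    have h8 : b * (q i - v) ≤ b * (q i - q (j - 1)) := by rw [ev]; linarith
    have := le_of_mul_le_mul_left h8 hb
    linarith
  have hc : cnt q v = j := hq.cnt_eq_of hvj hvj'
  refine ⟨v, ?_, j, i, ⟨hc, hji, ?_, ?_⟩, ?_⟩
  · rcases hvj' with h5 | h5
    · rw [h5] at ev
      have : b * (q i - v) ≤ b * (q i - 0) := by
        rw [ev]; simpa using h3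
      have := le_of_mul_le_mul_left this hb
      linarith
    · have : q 0 ≤ q (j - 1) := hq.mono.monotone (Nat.zero_le _)
      linarith
  · rw [ev]; linarith
  · intro l hl1 hl2
    have := hl l hl1 hl2
    have e : b * (q l - v) = b * (q i - v) - b * (q i - q l) := by ring
    rw [e, ev]; linarith
  · rw [ev]; ring

/-- Every `v` with `a v < cnt v` is hit. -/
theorem Pts.range_C (hq : Pts q) (h0 : 0 < q 0) {a : ℝ} (ha : 0 < a) {v : ℝ}
    (hv0 : q 0 ≤ v) (hv : a * v < cnt q v) : ∃ y, 0 < y ∧ RC q a y v := by
  classical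
  set m := cnt q v with hm
  have hm0 : 0 < m := by rw [hm, hq.lt_cnt_iff]; exact hv0
  set P : ℕ → Prop := fun i => (i : ℝ) < m - a * (v - q i) with hP
  have hP0 : P 0 := by
    simp only [hP, Nat.cast_zero]
    nlinarith
  set i := Nat.findGreatest P (m - 1) with hi
  have hPi : P i := Nat.findGreatest_spec (P := P) (Nat.zero_le (m - 1)) hP0
  have him : i ≤ m - 1 := Nat.findGreatest_le (m - 1)
  have hmax : ∀ l, i < l → l < m → (m : ℝ) - a * (v - q l) ≤ l := by
    intro l h1 h2
    have := Nat.findGreatest_is_greatest (P := P) (n := m - 1) h1 (by omega)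
    simpa only [hP, not_lt] using this
  have hqv : q (m - 1) ≤ v := by rw [← hq.lt_cnt_iff]; omega
  have hvq : v < q m := hq.lt_cnt v
  refine ⟨m - a * (v - q i), ?_, i, m, ⟨hPi, ?_, by omega, ?_, ?_⟩, ?_⟩
  · have : (0 : ℝ) ≤ i := Nat.cast_nonneg i
    have : (i : ℝ) < m - a * (v - q i) := hPi
    linarith
  · rcases Nat.eq_or_lt_of_le him with h5 | h5
    · have h6 : (m : ℝ) = i + 1 := by
        have : m = i + 1 := by omega
        rw [this]; push_cast; ring
      rw [h5]
      have : 0 ≤ a * (v - q (m - 1)) := mul_nonneg ha.le (by linarith)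
      have h7 : ((m - 1 : ℕ) : ℝ) + 1 = m := by rw [← h5, h6]
      linarith
    · have h6 := hmax (i + 1) (by omega) (by omega)
      have h7 : q i < q (i + 1) := hq.mono (Nat.lt_succ_self i)
      push_cast at h6
      nlinarith
  · intro l h1 h2
    have := hmax l h1 h2
    nlinarith
  · nlinarith
  · have : ((m : ℝ) - (m - a * (v - q i))) / a = v - q i := by field_simp; ring
    rw [this]; ring

/-- the first time at which the count reaches the line of slope `b` -/
theorem Pts.first_high (hq : Pts q) {b : ℝ} (hb : 0 < b) (v s : ℝ) :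
    IsLeast {s | v < s ∧ b * (s - v) ≤ (cnt q s : ℝ) - cnt q v} s ↔
      ∃ i, PB q b (cnt q v) i v ∧ s = q i := by
  constructor
  · rintro ⟨⟨h1, h2⟩, h3⟩
    have h4 : 0 < b * (s - v) := mul_pos hb (by linarith)
    have h5 : cnt q v < cnt q s := by
      have : (cnt q v : ℝ) < cnt q s := by linarith
      exact_mod_cast this
    have key : ∀ l, cnt q v ≤ l → (b * (q l - v) ≤ (l : ℝ) + 1 - cnt q v) → s ≤ q l := by
      intro l hl1 hl2
      apply h3
      refine ⟨?_, ?_⟩
      · exact (hq.lt_cnt v).trans_le (hq.mono.monotone hl1)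
      · rw [hq.cnt_q]; push_cast; exact hl2
    have h6 : q (cnt q s - 1) ≤ s := by rw [← hq.lt_cnt_iff]; omega
    have h7 : ((cnt q s - 1 : ℕ) : ℝ) + 1 = cnt q s := by
      rw [Nat.cast_sub (by omega)]; simp
    have h8 : s = q (cnt q s - 1) := by
      apply le_antisymm _ h6
      apply key _ (by omega)
      rw [h7]
      have : b * (q (cnt q s - 1) - v) ≤ b * (s - v) := mul_le_mul_of_nonneg_left (by linarith) hb.le
      linarith
    refine ⟨cnt q s - 1, ⟨rfl, by omega, ?_, ?_⟩, h8⟩
    · rw [h7, ← h8]; linarith
    · intro l hl1 hl2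
      by_contra hlt
      push Not at hlt
      have h9 := key l hl1 (by linarith)
      have h10 : q l < q (cnt q s - 1) := hq.mono hl2
      rw [← h8] at h10
      linarith
  · rintro ⟨i, ⟨-, h2, h3, h4⟩, rfl⟩
    refine ⟨⟨(hq.lt_cnt v).trans_le (hq.mono.monotone h2), ?_⟩, ?_⟩
    · rw [hq.cnt_q]; push_cast; linarith
    · rintro s ⟨h5, h6⟩
      by_contra hlt
      push Not at hlt
      have h7 : 0 < b * (s - v) := mul_pos hb (by linarith)
      have h8 : cnt q v < cnt q s := by
        have : (cnt q v : ℝ) < cnt q s := by linarith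
        exact_mod_cast this
      have h9 : q (cnt q s - 1) ≤ s := by rw [← hq.lt_cnt_iff]; omega
      have h10 : cnt q s - 1 < i := by
        by_contra h11
        have : q i ≤ q (cnt q s - 1) := hq.mono.monotone (by omega)
        linarith
      have h11 := h4 (cnt q s - 1) (by omega) h10
      have h7 : ((cnt q s - 1 : ℕ) : ℝ) + 1 = cnt q s := by
        rw [Nat.cast_sub (by omega)]; simp
      rw [h7] at h11
      have : b * (q (cnt q s - 1) - v) ≤ b * (s - v) := mul_le_mul_of_nonneg_left (by linarith) hb.le
      linarith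

/-- the first time at which the count is below the line of slope `a` -/
theorem Pts.first_low (hq : Pts q) {a : ℝ} (ha : 0 < a) {i : ℕ} {y : ℝ} (h1 : (i : ℝ) < y)
    (h2 : y ≤ i + 1) (t : ℝ) :
    IsLeast {t | q i ≤ t ∧ (cnt q t : ℝ) ≤ y + a * (t - q i)} t ↔
      ∃ m, PC q a i m y ∧ t = q i + (m - y) / a := by
  constructor
  · rintro ⟨⟨h3, h4⟩, h5⟩
    set m := cnt q t with hm
    have him : i < m := by rw [hm, hq.lt_cnt_iff]; exact h3
    have himr : (i : ℝ) + 1 ≤ m := by exact_mod_cast him
    have hmq : q (m - 1) ≤ t := by rw [← hq.lt_cnt_iff]; omega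
    have htq : t < q m := hq.lt_cnt t
    have hm1 : ((m - 1 : ℕ) : ℝ) + 1 = m := by
      rw [Nat.cast_sub (by omega)]; simp
    -- earlier times are not in the set
    have key : ∀ t', q i ≤ t' → t' < t → y + a * (t' - q i) < cnt q t' := by
      intro t' h6 h7
      by_contra h8
      push Not at h8
      exact absurd (h5 ⟨h6, h8⟩) (by simpa using h7)
    -- the left limit at the points
    have hleft : ∀ l, i < l → l < m → y + a * (q l - q i) ≤ l := by
      intro l h6 h7
      by_contra h8
      push Not at h8
      have hql : q l ≤ t := by rw [← hq.lt_cnt_iff]; omega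
      -- choose `t'` just before `q l`
      set t' := max (q (l - 1)) (q i + (l - y) / a) with ht'
      have e1 : a * ((l - y) / a) = l - y := by field_simp
      have h9 : t' < q l := by
        rw [ht', max_lt_iff]
        refine ⟨hq.mono (by omega), ?_⟩
        have : a * ((l - y) / a) < a * (q l - q i) := by rw [e1]; linarith
        have := lt_of_mul_lt_mul_left this ha.le
        linarith
      have h10 : q (l - 1) ≤ t' := le_max_left _ _
      have h11 : cnt q t' = l := hq.cnt_eq_of h9 (Or.inr h10)
      have h12 : q i ≤ t' := (hq.mono.monotone (by omega : i ≤ l - 1)).trans h10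
      have h13 := key t' h12 (h9.trans_le hql)
      rw [h11] at h13
      have h14 : q i + (l - y) / a ≤ t' := le_max_right _ _
      have : a * ((l - y) / a) ≤ a * (t' - q i) := mul_le_mul_of_nonneg_left (by linarith) ha.le
      linarith
    -- `t` is determined by `m`
    have ht : t = q i + (m - y) / a := by
      have e1 : a * ((m - y) / a) = m - y := by field_simp
      have h6 : q i + (m - y) / a ≤ t := by
        have : a * ((m - y) / a) ≤ a * (t - q i) := by rw [e1]; linarith
        have := le_of_mul_le_mul_left this ha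
        linarith
      apply le_antisymm _ h6
      by_contra h7
      push Not at h7
      set t' := max (q (m - 1)) (q i + (m - y) / a) with ht'
      have h8 : t' ≤ t := max_le hmq h6
      have h9 : t' < t := by
        rw [ht', max_lt_iff]
        refine ⟨?_, h7⟩
        rcases hmq.eq_or_lt with h10 | h10
        · exfalso
          rcases Nat.eq_or_lt_of_le (Nat.le_sub_one_of_lt him) with h11 | h11
          · -- `t = q i`, but `(m - y) / a ≥ 0`
            have : (m : ℝ) = i + 1 := by rw [← hm1, ← h11]
            have : 0 ≤ (m - y) / a := div_nonneg (by linarith) ha.le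
            rw [← h11] at h10
            linarith
          · have h12 := hleft (m - 1) h11 (by omega)
            rw [h10] at h12
            linarith
        · exact h10
      have h10 : q (m - 1) ≤ t' := le_max_left _ _
      have h11 : cnt q t' = m := hq.cnt_eq_of (h9.trans htq) (Or.inr h10)
      have h12 : q i ≤ t' := (hq.mono.monotone (by omega : i ≤ m - 1)).trans h10
      have h13 := key t' h12 h9
      rw [h11] at h13
      have h14 : q i + (m - y) / a ≤ t' := le_max_right _ _
      have : a * ((m - y) / a) ≤ a * (t' - q i) := mul_le_mul_of_nonneg_left (by linarith) ha.le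
      linarith
    refine ⟨m, ⟨h1, h2, him, hleft, ?_⟩, ht⟩
    have e1 : a * ((m - y) / a) = m - y := by field_simp
    have : a * ((m - y) / a) < a * (q m - q i) := by
      apply mul_lt_mul_of_pos_left _ ha
      linarith
    linarith
  · rintro ⟨m, hP, rfl⟩
    have hc := hP.cnt_eq hq ha
    have h0 := hP.quot_nonneg ha
    obtain ⟨-, -, h3, h4, h5⟩ := hP
    have e1 : a * ((m - y) / a) = m - y := by field_simp
    refine ⟨⟨by linarith, ?_⟩, ?_⟩
    · rw [hc]
      have : a * (q i + (m - y) / a - q i) = m - y := by rw [add_sub_cancel_left, e1]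
      rw [this]; linarith
    · rintro t ⟨h6, h7⟩
      by_contra hlt
      push Not at hlt
      have h8 : cnt q t ≤ m := by
        rw [← hc]; exact hq.cnt_mono hlt.le
      have h9 : i < cnt q t := by rw [hq.lt_cnt_iff]; exact h6
      have h10 : a * (t - q i) < m - y := by
        rw [← e1]; apply mul_lt_mul_of_pos_left _ ha; linarith
      rcases Nat.eq_or_lt_of_le h8 with h11 | h11
      · rw [h11] at h7; linarith
      · have h12 := h4 (cnt q t) h9 h11
        have h13 := hq.lt_cnt t
        have : a * (t - q i) < a * (q (cnt q t) - q i) := mul_lt_mul_of_pos_left (by linarith) ha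
        linarith

end Pool.Agent.TH110.Zig
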