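import Pool.Agent.TH110.Zig.Osc

/-!
# Returns of the local density, uniformly in the number of returns
-/

set_option autoImplicit false

open MeasureTheory Set Filter Topology

namespace Pool.Agent.TH110.Zig

variable {q : ℕ → ℝ} {L : ℝ → ℝ}

/-- the local density `(F (x + H) - F x) L x / H` is at least `b` at `H 0`, at most `a` at `H 1`, at
least `b` at `H 2`, and so on up to `H (2 k) ≤ x`, `0 < H 0 < H 1 < ...` -/
def Returns (F L : ℝ → ℝ) (a b : ℝ) (k : ℕ) (x : ℝ) : Prop :=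
  ∃ H : ℕ → ℝ, 0 < H 0 ∧ (∀ i < 2 * k, H i < H (i + 1)) ∧ H (2 * k) ≤ x ∧
    (∀ i ≤ k, b ≤ (F (x + H (2 * i)) - F x) * L x / H (2 * i)) ∧
    ∀ i < k, (F (x + H (2 * i + 1)) - F x) * L x / H (2 * i + 1) ≤ a

/-- `L` is slowly varying -/
def Slow (L : ℝ → ℝ) : Prop := ∀ δ : ℝ, 0 < δ → ∀ᶠ Y : ℝ in atTop, ∀ x : ℝ, Y / 2 ≤ x → x ≤ Y →
  (1 - δ) * L Y ≤ L x ∧ L x ≤ (1 + δ) * L Y

theorem chain_pos {H : ℕ → ℝ} {k : ℕ} (h0 : 0 < H 0) (h : ∀ i < 2 * k, H i < H (i + 1)) :
    ∀ i ≤ 2 * k, 0 < H i := by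
  intro i
  induction i with
  | zero => intro _; exact h0
  | succ i ih => intro hi; exact (ih (by omega)).trans (h i (by omega))

theorem chain_le {H : ℕ → ℝ} {k : ℕ} (h : ∀ i < 2 * k, H i < H (i + 1)) :
    ∀ i ≤ 2 * k, H i ≤ H (2 * k) := by
  have : ∀ d i, i + d = 2 * k → H i ≤ H (2 * k) := by
    intro d
    induction d with
    | zero => intro i hi; rw [← hi, add_zero]
    | succ d ih =>
      intro i hi
      exact (h i (by omega)).le.trans (ih (i + 1) (by omega))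
  intro i hi
  exact this (2 * k - i) i (by omega)

theorem Pts.cr_mono (hq : Pts q) : Monotone (cr q) := by
  intro v w h
  unfold cr
  exact_mod_cast hq.cnt_mono h

theorem returns_osc (hq : Pts q) {a b a' b' ε δ₁ δ₂ Y x : ℝ} (k : ℕ)
    (hδ₁ : 0 < δ₁) (hδ₁1 : δ₁ ≤ 1) (ha' : a' = a * (1 + δ₁))
    (hb' : b' = b * (1 - δ₁)) (hε : 0 < ε) (hε1 : ε ≤ 1)
    (hcase : (1 < b ∧ 4 * δ₂ < (b' - 1) * ε) ∨
      (4 * δ₂ < (1 - a') * ε ∧ 4 * δ₂ ≤ (1 - b') * ε))
    (hY : 0 < Y) (hl : 0 < L Y)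
    (hwin : ∀ v : ℝ, 1 / 2 * Y ≤ v → v ≤ 2 * Y → |cr q v - v / L Y| ≤ δ₂ * (v / L Y))
    (hδ₂ : 0 < δ₂)
    (hx1 : Y / 2 < x) (hx2 : x ≤ Y)
    (hslow : (1 - δ₁ / 2) * L Y ≤ L x ∧ L x ≤ (1 + δ₁ / 2) * L Y)
    (h : Returns (cr q) L a b k x) :
    OscF (cr q) (a' / L Y) (b' / L Y) ((1 + ε) * Y) k x := by
  obtain ⟨H, h0, h1, h2, h3, h4⟩ := h
  have hpos := chain_pos h0 h1
  have hle := chain_le h1
  set ℓ := L Y with hℓ
  have hx0 : 0 < x := by linarith
  -- the count in `(x, x + s]`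
  have hA : ∀ s, 0 < s → s ≤ x → |(cr q (x + s) - cr q x) - s / ℓ| ≤ 4 * δ₂ * Y / ℓ := by
    intro s hs hsx
    have h5 := abs_le.mp (hwin (x + s) (by linarith) (by linarith))
    have h6 := abs_le.mp (hwin x (by linarith) (by linarith))
    have e1 : (x + s) / ℓ = x / ℓ + s / ℓ := by ring
    have e2 : 4 * δ₂ * Y / ℓ = δ₂ * (4 * Y / ℓ) := by ring
    have h7 : (x + s) / ℓ + x / ℓ ≤ 4 * Y / ℓ := by
      rw [← add_div]
      exact div_le_div_of_nonneg_right (by linarith) hl.le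
    have h8 := mul_le_mul_of_nonneg_left h7 hδ₂.le
    rw [e1] at h5 h8
    rw [e2, abs_le]
    constructor
    · nlinarith [h5.1, h6.2]
    · nlinarith [h5.2, h6.1]
  have hA0 : ∀ s, 0 < s → 0 ≤ cr q (x + s) - cr q x := by
    intro s hs
    have := hq.cr_mono (show x ≤ x + s by linarith)
    linarith
  -- high and low with the scale `Y`
  have hhigh : ∀ s, 0 < s → b ≤ (cr q (x + s) - cr q x) * L x / s →
      b' / ℓ * s ≤ cr q (x + s) - cr q x := by
    intro s hs h5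
    rw [le_div_iff₀ hs] at h5
    have h6 : (cr q (x + s) - cr q x) * L x ≤ (cr q (x + s) - cr q x) * ((1 + δ₁ / 2) * ℓ) :=
      mul_le_mul_of_nonneg_left hslow.2 (hA0 s hs)
    rw [div_mul_eq_mul_div, div_le_iff₀ hl, hb']
    have h7 : (1 - δ₁) * ((cr q (x + s) - cr q x) * ((1 + δ₁ / 2) * ℓ)) ≤
        (cr q (x + s) - cr q x) * ℓ := by
      have h8 : (1 - δ₁) * (1 + δ₁ / 2) ≤ 1 := by nlinarith
      have h9 : 0 ≤ (cr q (x + s) - cr q x) * ℓ := mul_nonneg (hA0 s hs) hl.le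
      nlinarith
    have h8 : (1 - δ₁) * (b * s) ≤ (1 - δ₁) * ((cr q (x + s) - cr q x) * ((1 + δ₁ / 2) * ℓ)) :=
      mul_le_mul_of_nonneg_left (h5.trans h6) (by linarith)
    linarith
  have hlow : ∀ s, 0 < s → (cr q (x + s) - cr q x) * L x / s ≤ a →
      cr q (x + s) - cr q x ≤ a' / ℓ * s := by
    intro s hs h5
    rw [div_le_iff₀ hs] at h5
    have h6 : (cr q (x + s) - cr q x) * ((1 - δ₁ / 2) * ℓ) ≤ (cr q (x + s) - cr q x) * L x :=
      mul_le_mul_of_nonneg_left hslow.1 (hA0 s hs)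
    rw [div_mul_eq_mul_div, le_div_iff₀ hl, ha']
    have h7 : (cr q (x + s) - cr q x) * ℓ ≤
        (1 + δ₁) * ((cr q (x + s) - cr q x) * ((1 - δ₁ / 2) * ℓ)) := by
      have h8 : 1 ≤ (1 + δ₁) * (1 - δ₁ / 2) := by nlinarith
      have h9 : 0 ≤ (cr q (x + s) - cr q x) * ℓ := mul_nonneg (hA0 s hs) hl.le
      nlinarith
    have h8 : (1 + δ₁) * ((cr q (x + s) - cr q x) * ((1 - δ₁ / 2) * ℓ)) ≤ (1 + δ₁) * (a * s) :=
      mul_le_mul_of_nonneg_left (h6.trans h5) (by linarith)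
    linarith
  -- the last time can be taken before `ε Y`
  set M : ℝ := min (H (2 * k)) (ε * Y) with hM
  have hεY : 0 < ε * Y := by positivity
  have hεYx : ε * Y ≤ 2 * x := by nlinarith
  have hM0 : 0 < M := lt_min (hpos _ le_rfl) hεY
  have hk0 := h3 k le_rfl
  have hkey : (H (2 * k) ≤ ε * Y) ∨ ((∀ s, 0 < s → s ≤ x → ε * Y ≤ s →
      ¬ cr q (x + s) - cr q x ≤ a' / ℓ * s) ∧ (ε * Y ≤ x →
        b' / ℓ * (ε * Y) ≤ cr q (x + ε * Y) - cr q x)) := by
    rcases hcase with ⟨-, h5⟩ | ⟨h5, h6⟩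
    · left
      by_contra h7
      push Not at h7
      have h8 := hhigh _ (hpos _ le_rfl) hk0
      have h9 := (abs_le.mp (hA _ (hpos _ le_rfl) h2)).2
      have h10 : b' / ℓ * H (2 * k) - H (2 * k) / ℓ ≤ 4 * δ₂ * Y / ℓ := by linarith
      have e : b' / ℓ * H (2 * k) - H (2 * k) / ℓ = (b' - 1) * H (2 * k) / ℓ := by ring
      rw [e, div_le_div_iff_of_pos_right hl] at h10
      have hb1 : 0 < b' - 1 := by
        have : 0 < (b' - 1) * ε := by linarith
        exact pos_of_mul_pos_left this hε.le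
      have h11 : (b' - 1) * (ε * Y) ≤ (b' - 1) * H (2 * k) :=
        mul_le_mul_of_nonneg_left h7.le hb1.le
      nlinarith
    · right
      have ha1 : 0 < 1 - a' := by
        have : 0 < (1 - a') * ε := by linarith
        exact pos_of_mul_pos_left this hε.le
      constructor
      · intro s hs hsx hεs h7
        have h9 := (abs_le.mp (hA s hs hsx)).1
        have h10 : s / ℓ - a' / ℓ * s ≤ 4 * δ₂ * Y / ℓ := by linarith
        have e : s / ℓ - a' / ℓ * s = (1 - a') * s / ℓ := by ring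
        rw [e, div_le_div_iff_of_pos_right hl] at h10
        have h11 : (1 - a') * (ε * Y) ≤ (1 - a') * s := mul_le_mul_of_nonneg_left hεs ha1.le
        nlinarith
      · intro hεx
        have h9 := (abs_le.mp (hA (ε * Y) hεY hεx)).1
        have h10 : b' / ℓ * (ε * Y) ≤ ε * Y / ℓ - 4 * δ₂ * Y / ℓ := by
          have e : ε * Y / ℓ - 4 * δ₂ * Y / ℓ = (ε - 4 * δ₂) * Y / ℓ := by ring
          rw [e, div_mul_eq_mul_div]
          apply div_le_div_of_nonneg_right _ hl.le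
          nlinarith
        linarith
  have hlast : ∀ i, i + 1 = 2 * k → H i < M := by
    intro i hi
    rw [hM, lt_min_iff]
    have h5 : H i < H (2 * k) := by rw [← hi]; exact h1 i (by omega)
    refine ⟨h5, ?_⟩
    rcases hkey with h6 | ⟨h6, -⟩
    · exact h5.trans_le h6
    · by_contra h7
      push Not at h7
      have h8 := h4 (k - 1) (by omega)
      have e : 2 * (k - 1) + 1 = i := by omega
      rw [e] at h8
      exact h6 (H i) (hpos i (by omega)) ((hle i (by omega)).trans h2) h7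
        (hlow _ (hpos i (by omega)) h8)
  refine ⟨fun j => x + if j < 2 * k then H j else M, ?_, ?_, ?_, ?_, ?_⟩
  · change x < x + (if 0 < 2 * k then H 0 else M)
    split_ifs
    · linarith
    · linarith
  · intro i hi
    change x + (if i < 2 * k then H i else M) < x + (if i + 1 < 2 * k then H (i + 1) else M)
    rw [if_pos hi]
    split_ifs with h5
    · have := h1 i hi; linarith
    · have := hlast i (by omega); linarith
  · change x + (if 2 * k < 2 * k then H (2 * k) else M) ≤ (1 + ε) * Y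
    rw [if_neg (lt_irrefl _)]
    have : M ≤ ε * Y := min_le_right _ _
    linarith
  · intro i hi
    change b' / ℓ * (x + (if 2 * i < 2 * k then H (2 * i) else M) - x) ≤
      cr q (x + (if 2 * i < 2 * k then H (2 * i) else M)) - cr q x
    rw [add_sub_cancel_left]
    split_ifs with h5
    · exact hhigh _ (hpos _ (by omega)) (h3 i hi)
    · rcases le_total (H (2 * k)) (ε * Y) with h6 | h6
      · rw [hM, min_eq_left h6]
        exact hhigh _ (hpos _ le_rfl) hk0
      · rw [hM, min_eq_right h6]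
        rcases hkey with h7 | ⟨-, h7⟩
        · have h8 : H (2 * k) = ε * Y := le_antisymm h7 h6
          rw [← h8]
          exact hhigh _ (hpos _ le_rfl) hk0
        · exact h7 (h6.trans h2)
  · intro i hi
    change cr q (x + (if 2 * i + 1 < 2 * k then H (2 * i + 1) else M)) - cr q x ≤
      a' / ℓ * (x + (if 2 * i + 1 < 2 * k then H (2 * i + 1) else M) - x)
    rw [add_sub_cancel_left, if_pos (by omega)]
    exact hlow _ (hpos _ (by omega)) (h4 i hi)

/-- The bound in a dyadic window, uniformly in `k`. -/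
theorem Reg.window (hR : Reg q L) (hs : Slow L) {a b δ : ℝ} (ha : 0 < a) (hab : a < b)
    (hδ : 0 < δ) : ∀ᶠ Y : ℝ in atTop, ∀ k : ℕ,
      volume.real {x | Y / 2 < x ∧ x ≤ Y ∧ Returns (cr q) L a b k x} ≤
        (1 + δ) * min 1 (1 / b) * (a / b + δ) ^ k * (Y / 2) := by
  have hb : 0 < b := ha.trans hab
  -- choice of `δ₁`
  have hcont : ∀ (f : ℝ → ℝ) (c : ℝ), Continuous f → f 0 < c → ∀ᶠ x in 𝓝[>] (0 : ℝ), f x < c := by
    intro f c hf h0
    exact (hf.continuousAt.eventually (gt_mem_nhds h0)).filter_mono nhdsWithin_le_nhds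
  have hP : ∀ᶠ d in 𝓝[>] (0 : ℝ), 0 < d ∧ d < 1 ∧ a * (1 + d) - b * (1 - d) < 0 ∧
      (1 < b → - (b * (1 - d)) < -1) ∧ (b ≤ 1 → a * (1 + d) < 1) ∧
      a * (1 + d) - (a / b + δ) * (b * (1 - d)) < 0 ∧ (1 + δ / 2) - (1 + δ) * (1 - d) < 0 := by
    have g1 := hcont (fun d => d) 1 (by fun_prop) (by norm_num)
    have g2 := hcont (fun d => a * (1 + d) - b * (1 - d)) 0 (by fun_prop) (by linarith)
    have g3 : ∀ᶠ d in 𝓝[>] (0 : ℝ), (1 < b → - (b * (1 - d)) < -1) := by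
      by_cases hb1 : 1 < b
      · filter_upwards [hcont (fun d => - (b * (1 - d))) (-1) (by fun_prop) (by linarith)] with
          d hd _
        exact hd
      · exact Eventually.of_forall fun d h => absurd h hb1
    have g4 : ∀ᶠ d in 𝓝[>] (0 : ℝ), (b ≤ 1 → a * (1 + d) < 1) := by
      by_cases hb1 : b ≤ 1
      · filter_upwards [hcont (fun d => a * (1 + d)) 1 (by fun_prop) (by linarith)] with d hd _
        exact hd
      · exact Eventually.of_forall fun d h => absurd h hb1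
    have g5 := hcont (fun d => a * (1 + d) - (a / b + δ) * (b * (1 - d))) 0 (by fun_prop) (by
      have : (a / b + δ) * b = a + δ * b := by field_simp
      have h2 : 0 < δ * b := by positivity
      simp only [add_zero, mul_one, sub_zero]
      rw [this]; linarith)
    have g6 := hcont (fun d => (1 + δ / 2) - (1 + δ) * (1 - d)) 0 (by fun_prop) (by
      simp only [sub_zero, mul_one]; linarith)
    filter_upwards [self_mem_nhdsWithin, g1, g2, g3, g4, g5, g6] with d h0 h1 h2 h3 h4 h5 h6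
    exact ⟨h0, h1, h2, h3, h4, h5, h6⟩
  obtain ⟨δ₁, hδ₁0, hδ₁1, hab', hb1', ha1', hratio, hδ₁δ⟩ := hP.exists
  set a' := a * (1 + δ₁) with ha'
  set b' := b * (1 - δ₁) with hb'
  have ha'0 : 0 < a' := by positivity
  have hb'0 : 0 < b' := mul_pos hb (by linarith)
  have hab'' : a' < b' := by linarith
  -- choice of `ε` and `δ₂`
  obtain ⟨ε, hε0, hε1, hεδ⟩ : ∃ ε : ℝ, 0 < ε ∧ ε ≤ 1 ∧ 2 * ε ≤ δ / 8 :=
    ⟨min 1 (δ / 16), by positivity, min_le_left _ _, by
      have := min_le_right 1 (δ / 16); linarith⟩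
  obtain ⟨δ₂, hδ₂0, hδ₂δ, hδ₂1, hcase⟩ : ∃ δ₂ : ℝ, 0 < δ₂ ∧ 4 * δ₂ ≤ δ / 4 ∧ δ₂ ≤ 1 ∧
      ((1 < b ∧ 4 * δ₂ < (b' - 1) * ε) ∨
        (4 * δ₂ < (1 - a') * ε ∧ 4 * δ₂ ≤ (1 - b') * ε)) := by
    by_cases hb1 : 1 < b
    · have h1 := hb1' hb1
      have h2 : 0 < (b' - 1) * ε := mul_pos (by linarith) hε0
      refine ⟨min 1 (min (δ / 16) ((b' - 1) * ε / 5)), by positivity, ?_, min_le_left _ _,
        Or.inl ⟨hb1, ?_⟩⟩
      · have := (min_le_right 1 (min (δ / 16) ((b' - 1) * ε / 5))).trans (min_le_left _ _)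
        linarith
      · have := (min_le_right 1 (min (δ / 16) ((b' - 1) * ε / 5))).trans (min_le_right _ _)
        linarith
    · have h1 := ha1' (not_lt.mp hb1)
      have h2 : 0 < (1 - a') * ε := mul_pos (by linarith) hε0
      have h3 : b' < 1 := by
        have : b * δ₁ > 0 := by positivity
        rw [hb']; linarith
      have h4 : 0 < (1 - b') * ε := mul_pos (by linarith) hε0
      have h5 : (1 - b') * ε ≤ (1 - a') * ε := mul_le_mul_of_nonneg_right (by linarith) hε0.le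
      refine ⟨min 1 (min (δ / 16) ((1 - b') * ε / 5)), by positivity, ?_, min_le_left _ _,
        Or.inr ⟨?_, ?_⟩⟩
      · have := (min_le_right 1 (min (δ / 16) ((1 - b') * ε / 5))).trans (min_le_left _ _)
        linarith
      · have := (min_le_right 1 (min (δ / 16) ((1 - b') * ε / 5))).trans (min_le_right _ _)
        linarith
      · have := (min_le_right 1 (min (δ / 16) ((1 - b') * ε / 5))).trans (min_le_right _ _)
        linarith
  filter_upwards [hR.win (1 / 2) 2 δ₂ (by norm_num) hδ₂0, hR.lpos, eventually_gt_atTop 0,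
    hs (δ₁ / 2) (by positivity)] with Y hwin hl hY hslow k
  have hsub : {x | Y / 2 < x ∧ x ≤ Y ∧ Returns (cr q) L a b k x} ⊆
      {x | Y / 2 < x ∧ OscF (cr q) (a' / L Y) (b' / L Y) ((1 + ε) * Y) k x} := by
    rintro x ⟨h1, h2, h3⟩
    exact ⟨h1, returns_osc hR.pts k hδ₁0 hδ₁1.le ha' hb' hε0 hε1 hcase hY hl hwin hδ₂0 h1 h2
      (hslow x h1.le h2) h3⟩
  have hZW : Y / 2 ≤ (1 + ε) * Y := by nlinarith
  have hfin : volume {x | Y / 2 < x ∧ OscF (cr q) (a' / L Y) (b' / L Y) ((1 + ε) * Y) k x} ≠ ⊤ := by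
    have hsub2 : {x | Y / 2 < x ∧ OscF (cr q) (a' / L Y) (b' / L Y) ((1 + ε) * Y) k x} ⊆
        Icc 0 ((1 + ε) * Y) := by
      rintro x ⟨h1, h2⟩
      have h3 := hR.pts.oscF_mem (div_pos ha'0 hl) (div_le_div_of_nonneg_right hab''.le hl.le)
        (by linarith : 0 ≤ Y / 2) k x h1 h2
      exact ⟨by linarith, (hR.pts.DK_subset (div_pos hb'0 hl) k h3).2⟩
    exact real_ne_top hsub2
  refine (measureReal_mono hsub hfin).trans ?_
  refine (hR.pts.real_osc_le ha'0 hab''.le (by linarith) hZW hl k).trans ?_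
  -- the final estimate
  have h1 := (abs_le.mp (hwin ((1 + ε) * Y) (by nlinarith) (by nlinarith))).2
  have h2 := (abs_le.mp (hwin (Y / 2) (by linarith) (by linarith))).1
  have h3 : (cr q ((1 + ε) * Y) - cr q (Y / 2)) * L Y ≤ (1 + δ / 2) * (Y / 2) := by
    have e1 : (1 + ε) * Y / L Y * L Y = (1 + ε) * Y := by field_simp
    have e2 : Y / 2 / L Y * L Y = Y / 2 := by field_simp
    have h4 : cr q ((1 + ε) * Y) - cr q (Y / 2) ≤ (1 + ε) * Y / L Y - Y / 2 / L Y +
        δ₂ * ((1 + ε) * Y / L Y) + δ₂ * (Y / 2 / L Y) := by linarith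
    have h5 := mul_le_mul_of_nonneg_right h4 hl.le
    have e3 : ((1 + ε) * Y / L Y - Y / 2 / L Y + δ₂ * ((1 + ε) * Y / L Y) +
        δ₂ * (Y / 2 / L Y)) * L Y = (1 + ε) * Y - Y / 2 + δ₂ * ((1 + ε) * Y) + δ₂ * (Y / 2) := by
      rw [add_mul, add_mul, sub_mul, mul_assoc δ₂, mul_assoc δ₂, e1, e2]
    rw [e3] at h5
    refine h5.trans ?_
    have h6 : δ₂ * ((1 + ε) * Y) ≤ 2 * (δ₂ * Y) := by
      nlinarith [mul_nonneg (mul_pos hδ₂0 hY).le (by linarith : 0 ≤ 1 - ε)]
    have h7 : 4 * (δ₂ * Y) ≤ δ / 4 * Y := by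
      have := mul_le_mul_of_nonneg_right hδ₂δ hY.le
      linarith
    have h8 : 2 * (ε * Y) ≤ δ / 8 * Y := by
      have := mul_le_mul_of_nonneg_right hεδ hY.le
      linarith
    nlinarith
  have h4 : (1 + ε) * Y - Y / 2 ≤ (1 + δ / 2) * (Y / 2) := by nlinarith
  have hr : a' / b' ≤ a / b + δ := by
    rw [div_le_iff₀ hb'0]; linarith
  have hr0 : 0 ≤ a' / b' := by positivity
  have h5 : min ((1 + ε) * Y - Y / 2) ((cr q ((1 + ε) * Y) - cr q (Y / 2)) * L Y / b') ≤
      (1 + δ) * min 1 (1 / b) * (Y / 2) := by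
    rcases le_total 1 (1 / b) with h6 | h6
    · rw [min_eq_left h6]
      refine (min_le_left _ _).trans (h4.trans ?_)
      nlinarith
    · rw [min_eq_right h6]
      refine (min_le_right _ _).trans ?_
      rw [div_le_iff₀ hb'0]
      refine h3.trans ?_
      have e : (1 + δ) * (1 / b) * (Y / 2) * b' = (1 + δ) * (1 - δ₁) * (Y / 2) := by
        rw [hb']; field_simp
      rw [e]
      exact mul_le_mul_of_nonneg_right (by linarith) (by linarith)
  have h6 : (a' / b') ^ k ≤ (a / b + δ) ^ k := pow_le_pow_left₀ hr0 hr k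
  have h7 : 0 ≤ (1 + δ) * min 1 (1 / b) * (Y / 2) := by positivity
  calc (a' / b') ^ k * min ((1 + ε) * Y - Y / 2)
        ((cr q ((1 + ε) * Y) - cr q (Y / 2)) * L Y / b')
      ≤ (a' / b') ^ k * ((1 + δ) * min 1 (1 / b) * (Y / 2)) :=
        mul_le_mul_of_nonneg_left h5 (by positivity)
    _ ≤ (a / b + δ) ^ k * ((1 + δ) * min 1 (1 / b) * (Y / 2)) :=
        mul_le_mul_of_nonneg_right h6 h7
    _ = _ := by ring

end Pool.Agent.TH110.Zig
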