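import Pool.Agent.TH110.Zig.Meas
import Pool.Agent.TH110.Zig.Range

/-!
# One zigzag along a staircase
-/

set_option autoImplicit false

open MeasureTheory Set Filter Topology

namespace Pool.Agent.TH110.Zig

variable {q : ℕ → ℝ}

/-- `s` is the first time after `x` at which the count `F` reaches the line of slope `b` from `(x, F x)`,
and `t` is the first time from `s` on at which the count is not above the line that continues with
slope `a`. -/
def Zigzag (F : ℝ → ℝ) (a b x t : ℝ) : Prop :=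
  ∃ s : ℝ, IsLeast {s | x < s ∧ b * (s - x) ≤ F s - F x} s ∧
    IsLeast {t | s ≤ t ∧ F t - F x ≤ b * (s - x) + a * (t - s)} t

/-- the counting function with real values -/
noncomputable def cr (q : ℕ → ℝ) (x : ℝ) : ℝ := (cnt q x : ℝ)

theorem Pts.zigzag_iff (hq : Pts q) {a b : ℝ} (ha : 0 < a) (hb : 0 < b) (x t : ℝ) :
    Zigzag (cr q) a b x t ↔ ∃ y, RB q b x y ∧ RC q a y t := by
  unfold Zigzag
  simp only [cr]
  constructor
  · rintro ⟨s, h1, h2⟩
    obtain ⟨i, hP, rfl⟩ := (hq.first_high hb x s).mp h1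
    have e : {t | q i ≤ t ∧ (cnt q t : ℝ) - cnt q x ≤ b * (q i - x) + a * (t - q i)} =
        {t | q i ≤ t ∧ (cnt q t : ℝ) ≤ (cnt q x + b * (q i - x)) + a * (t - q i)} := by
      ext t
      simp only [mem_ofPred_eq]
      constructor
      · rintro ⟨h3, h4⟩; exact ⟨h3, by linarith⟩
      · rintro ⟨h3, h4⟩; exact ⟨h3, by linarith⟩
    rw [e] at h2
    obtain ⟨m, hm, ht⟩ := (hq.first_low ha (hP.y_gt hq hb) hP.2.2.1 t).mp h2
    exact ⟨_, ⟨_, i, hP, rfl⟩, i, m, hm, ht⟩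
  · rintro ⟨y, ⟨j, i, hP, hy⟩, i', m, hm, ht⟩
    have hi : i = i' := cast_between (hy ▸ hP.y_gt hq hb) (hy ▸ hP.2.2.1) hm.1 hm.2.1
    subst hi
    have hj : cnt q x = j := hP.1
    refine ⟨q i, (hq.first_high hb x (q i)).mpr ⟨i, by rw [hj]; exact hP, rfl⟩, ?_⟩
    have h2 := (hq.first_low ha (hP.y_gt hq hb) hP.2.2.1 t).mpr ⟨m, by rw [← hy]; exact hm,
      by rw [← hy]; exact ht⟩
    have e : {t | q i ≤ t ∧ (cnt q t : ℝ) - cnt q x ≤ b * (q i - x) + a * (t - q i)} =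
        {t | q i ≤ t ∧ (cnt q t : ℝ) ≤ (j + b * (q i - x)) + a * (t - q i)} := by
      ext t
      simp only [mem_ofPred_eq, hj]
      constructor
      · rintro ⟨h3, h4⟩; exact ⟨h3, by linarith⟩
      · rintro ⟨h3, h4⟩; exact ⟨h3, by linarith⟩
    rw [e]; exact h2

/-- the starting points of the zigzags that end in `A` -/
def Dom (q : ℕ → ℝ) (a b : ℝ) (A : Set ℝ) : Set ℝ := {x | 0 ≤ x ∧ ∃ t ∈ A, Zigzag (cr q) a b x t}

/-- the heights from which the line of slope `a` ends in `A` -/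
def Hts (q : ℕ → ℝ) (a : ℝ) (A : Set ℝ) : Set ℝ := {y | y ∈ (univ : Set ℝ) ∧ ∃ v ∈ A, RC q a y v}

theorem Pts.dom_eq (hq : Pts q) {a b : ℝ} (ha : 0 < a) (hb : 0 < b) (A : Set ℝ) :
    Dom q a b A = {v | v ∈ Ici (0 : ℝ) ∧ ∃ y ∈ Hts q a A, RB q b v y} := by
  ext x
  simp only [Dom, Hts, mem_ofPred_eq, hq.zigzag_iff ha hb, mem_Ici, mem_univ, true_and]
  constructor
  · rintro ⟨h0, t, h1, y, h2, h3⟩
    exact ⟨h0, y, ⟨t, h1, h3⟩, h2⟩
  · rintro ⟨h0, y, ⟨t, h1, h3⟩, h2⟩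
    exact ⟨h0, t, h1, y, h2, h3⟩

theorem meas_Hts (q : ℕ → ℝ) (a : ℝ) {A : Set ℝ} (hA : MeasurableSet A) : MeasurableSet (Hts q a A) :=
  meas_dom_C q a MeasurableSet.univ hA

theorem Pts.meas_Dom (hq : Pts q) {a b : ℝ} (ha : 0 < a) (hb : 0 < b) {A : Set ℝ} (hA : MeasurableSet A) :
    MeasurableSet (Dom q a b A) := by
  rw [hq.dom_eq ha hb]
  exact hq.meas_dom_B b measurableSet_Ici (meas_Hts q a hA)

/-- the upper bound, without error term -/
theorem Pts.vol_Dom_le (hq : Pts q) {a b : ℝ} (ha : 0 < a) (hb : 0 < b) {A : Set ℝ} (hA : MeasurableSet A) :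
    ENNReal.ofReal b * volume (Dom q a b A) ≤ ENNReal.ofReal a * volume A := by
  rw [hq.dom_eq ha hb, ← hq.vol_B hb measurableSet_Ici (meas_Hts q a hA)]
  refine (measure_mono (t := Hts q a A) fun y hy => hy.1).trans ?_
  unfold Hts
  rw [hq.vol_C ha MeasurableSet.univ hA]
  gcongr
  intro v hv; exact hv.1

theorem RC.start_le {a : ℝ} (ha : 0 < a) {y v : ℝ} (h : RC q a y v) :
    ∃ i : ℕ, (i : ℝ) < y ∧ y ≤ i + 1 ∧ q i ≤ v := by
  obtain ⟨i, m, hm, rfl⟩ := h
  exact ⟨i, hm.1, hm.2.1, by have := hm.quot_nonneg ha; linarith⟩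

/-- the lower bound: all `v ≥ M` in `A` with `a v < π(v)` are endpoints, and all heights at primes
`q ≥ M`, `π(q) ≤ b q`, are reached -/
theorem Pts.vol_Dom_ge (hq : Pts q) (hq0 : 0 < q 0) {a b M : ℝ} (ha : 0 < a) (hb : 0 < b)
    (hM : q 0 ≤ M) {A : Set ℝ}
    (hA : MeasurableSet A)
    (h1 : ∀ v ∈ A, M ≤ v → a * v < cr q v)
    (h2 : ∀ v ∈ A, ∀ w, M ≤ w → w ≤ v → cr q w ≤ b * w) :
    ENNReal.ofReal a * volume A ≤ ENNReal.ofReal b * volume (Dom q a b A) +
      (ENNReal.ofReal a * ENNReal.ofReal M + ENNReal.ofReal (cr q M)) +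
        ENNReal.ofReal a * volume (A ∩ Iio 0) := by
  rw [hq.dom_eq ha hb, ← hq.vol_B hb measurableSet_Ici (meas_Hts q a hA)]
  -- the heights
  have h3 : volume (Hts q a A) ≤ volume {y | y ∈ Hts q a A ∧ ∃ v ∈ Ici (0 : ℝ), RB q b v y} +
      ENNReal.ofReal (cr q M) := by
    have e : ENNReal.ofReal (cr q M) = volume (Ioc (0 : ℝ) (cr q M)) := by
      rw [Real.volume_Ioc, sub_zero]
    rw [e]
    refine (measure_mono ?_).trans (measure_union_le _ _)
    intro y hy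
    obtain ⟨-, v, hvA, hyv⟩ := hy
    obtain ⟨i, h4, h5, h6⟩ := hyv.start_le ha
    by_cases hqM : M ≤ q i
    · left
      have h7 := h2 v hvA (q i) hqM h6
      rw [cr, hq.cnt_q] at h7
      push_cast at h7
      obtain ⟨w, hw0, hw⟩ := hq.range_B hq0 hb h4 h5 (h5.trans h7)
      exact ⟨⟨mem_univ _, v, hvA, hyv⟩, w, hw0, hw⟩
    · right
      push Not at hqM
      refine ⟨(Nat.cast_nonneg i).trans_lt h4, h5.trans ?_⟩
      rw [cr]
      have := hq.cnt_mono hqM.le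
      rw [hq.cnt_q] at this
      exact_mod_cast this
  have h4 : ENNReal.ofReal a * volume A ≤ volume (Hts q a A) + (ENNReal.ofReal a * ENNReal.ofReal M +
      ENNReal.ofReal a * volume (A ∩ Iio 0)) := by
    unfold Hts
    rw [hq.vol_C ha MeasurableSet.univ hA, ← mul_add, ← mul_add]
    gcongr
    have e : ENNReal.ofReal M = volume (Ico (0 : ℝ) M) := by
      rw [Real.volume_Ico, sub_zero]
    rw [e]
    refine (measure_mono ?_).trans ((measure_union_le _ _).trans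
      (add_le_add le_rfl (measure_union_le _ _)))
    intro v hv
    by_cases hvM : M ≤ v
    · left
      refine ⟨hv, ?_⟩
      have h5 := h1 v hv hvM
      rw [cr] at h5
      have h6 : q 0 ≤ v := hM.trans hvM
      obtain ⟨y, -, hy⟩ := hq.range_C hq0 ha h6 h5
      exact ⟨y, mem_univ _, hy⟩
    · right
      by_cases hv0 : 0 ≤ v
      · left; exact ⟨hv0, not_le.mp hvM⟩
      · right; exact ⟨hv, not_le.mp hv0⟩
  calc ENNReal.ofReal a * volume A ≤ volume (Hts q a A) + (ENNReal.ofReal a * ENNReal.ofReal M +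
      ENNReal.ofReal a * volume (A ∩ Iio 0)) := h4
    _ ≤ (volume {y | y ∈ Hts q a A ∧ ∃ v ∈ Ici (0 : ℝ), RB q b v y} +
      ENNReal.ofReal (cr q M)) + (ENNReal.ofReal a * ENNReal.ofReal M +
      ENNReal.ofReal a * volume (A ∩ Iio 0)) := by gcongr
    _ = _ := by ring

end Pool.Agent.TH110.Zig
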